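import Mathlib

/-!
The definitions used in the theorem about compact continuous images of `C_p(K)`: notions of set
theory for an arbitrary membership relation `e` on a type `V`, the ladder principle, Luzin's axiom,
and the question of Tkachenko and Tkachuk.
-/

namespace FRU

universe u

section

variable {V : Type u} (e : V → V → Prop)

/-- `x ⊆ y` -/
def Incl (x y : V) : Prop := ∀ z, e z x → e z y

/-- `z` is the ordered pair of `a` and `b` (Kuratowski) -/
def IsOP (z a b : V) : Prop :=
  ∃ s t : V, (∀ w, e w s ↔ w = a) ∧ (∀ w, e w t ↔ w = a ∨ w = b) ∧ (∀ w, e w z ↔ w = s ∨ w = t)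

/-- the ordered pair of `a` and `b` is a member of `R` -/
def PairIn (a b R : V) : Prop := ∃ z, IsOP e z a b ∧ e z R

/-- `z` contains the empty set and with `y` also `y ∪ {y}` -/
def IsInductive (z : V) : Prop := (∃ t, (∀ s, ¬ e s t) ∧ e t z) ∧
  ∀ y, e y z → ∃ s, (∀ t, e t s ↔ e t y ∨ t = y) ∧ e s z

/-- `o` is the set of natural numbers (the least inductive set); the natural number `n` is the
set of all natural numbers below `n`, and `k ≤ n` means `k ⊆ n` -/
def IsOmega (o : V) : Prop := IsInductive e o ∧ ∀ z, IsInductive e z → Incl e o z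

/-- `x` is countable: there is an injective function from `x` to the set of natural numbers -/
def IsCountable (x : V) : Prop := ∃ o f, IsOmega e o ∧
  (∀ y, e y x → ∃ n, e n o ∧ PairIn e y n f) ∧
  (∀ y n n', PairIn e y n f → PairIn e y n' f → n = n') ∧
  ∀ y y' n, e y x → e y' x → PairIn e y n f → PairIn e y' n f → y = y'

/-- `x` is finite: there is an injective function from `x` to a natural number `m` -/
def IsFinite (x : V) : Prop := ∃ o m f, IsOmega e o ∧ e m o ∧
  (∀ y, e y x → ∃ n, e n m ∧ PairIn e y n f) ∧
  (∀ y n n', PairIn e y n f → PairIn e y n' f → n = n') ∧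
  ∀ y y' n, e y x → e y' x → PairIn e y n f → PairIn e y' n f → y = y'

/-- `x` is a transitive set -/
def IsTransitive (x : V) : Prop := ∀ y, e y x → Incl e y x

/-- `w` is the first uncountable ordinal: a transitive set of transitive sets, which is not
countable, all members of which are countable -/
def IsOmegaOne (w : V) : Prop := (IsTransitive e w ∧ ∀ y, e y w → IsTransitive e y) ∧
  ¬ IsCountable e w ∧ ∀ a, e a w → IsCountable e a

/-- `v` is a function from `a` to `b` -/
def IsFunction (v a b : V) : Prop := (∀ z, e z v → ∃ x y, e x a ∧ e y b ∧ IsOP e z x y) ∧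
  ∀ x, e x a → ∃ y, PairIn e x y v ∧ ∀ y', PairIn e x y' v → y' = y

/-- the pair `((d, (a, n)), (k, F))` is a member of `h`: the function `h` assigns to the
triple `d`, `a`, `n` the finite binary sequence of length `k` which is the characteristic
function of the set `F ⊆ k` -/
def LadderVal (h d a n k F : V) : Prop :=
  ∃ x y z, IsOP e x a n ∧ IsOP e y d x ∧ IsOP e z k F ∧ PairIn e y z h

/-- The ladder principle. There are `w`, the first uncountable ordinal, `o`, the set of natural
numbers, a function `h` which assigns to `d ∈ w`, `a ∈ d`, `n ∈ o` a finite binary sequence `h(d,a,n)`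
(a number `k ∈ o`, the length, and a set `F ⊆ k`), and a family `r` of pairwise different subsets `y`
of `o` indexed by the subsets `X` of `w`, such that
* for all `d ∈ w` and `n, l ∈ o` the length of `h(d,a,n)` is at most `l` only for finitely many `a ∈ d`;
* for each `X ⊆ w` there are functions `A`, `j` from `w` to `o` such that for each `d ∈ w` and for all
  but finitely many `a ∈ d`: the length `k` of `h(d,a,A(a))` is at most `j(a)`, or `h(d,a,A(a))` is the
  initial segment of length `k` of (the characteristic function of) `y`. -/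
def LadderPrinciple : Prop := ∃ w o h r : V, IsOmegaOne e w ∧ IsOmega e o ∧
  (∀ d a n, e d w → e a d → e n o → ∃ k F, e k o ∧ Incl e F k ∧ LadderVal e h d a n k F ∧
    ∀ k' F', LadderVal e h d a n k' F' → k' = k ∧ F' = F) ∧
  (∀ d n l, e d w → e n o → e l o → ∃ s, IsFinite e s ∧
    ∀ a k F, e a d → LadderVal e h d a n k F → Incl e k l → e a s) ∧
  (∀ X X' y, Incl e X w → Incl e X' w → PairIn e X y r → PairIn e X' y r → X = X') ∧
  ∀ X, Incl e X w → ∃ y A j, PairIn e X y r ∧ Incl e y o ∧ IsFunction e A w o ∧
    IsFunction e j w o ∧ ∀ d, e d w → ∃ s, IsFinite e s ∧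
      ∀ a n m k F, e a d → ¬ e a s → PairIn e a n A → PairIn e a m j →
        LadderVal e h d a n k F → Incl e k m ∨ ∀ i, e i F ↔ e i k ∧ e i y

/-- Luzin's axiom `2 ^ ω < 2 ^ ω₁`: there is no injective function from the power set of the first
uncountable ordinal `w` to the power set of the set `o` of natural numbers -/
def LuzinAxiom : Prop := ∃ w o : V, IsOmegaOne e w ∧ IsOmega e o ∧
  ¬ ∃ f, (∀ X, Incl e X w → ∃ y, Incl e y o ∧ PairIn e X y f) ∧
    ∀ X X' y, Incl e X w → Incl e X' w → PairIn e X y f → PairIn e X' y f → X = X'

end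

/-- the statement of the question of Tkachenko and Tkachuk: for every Fréchet–Urysohn compact
space `K`, every compact continuous image `Y` of `C_p(K)` is metrizable -/
def Question : Prop :=
  ∀ (K : Type) [TopologicalSpace K] [CompactSpace K] [T2Space K] [FrechetUrysohnSpace K]
    (Y : Type) [TopologicalSpace Y] [CompactSpace Y] [T2Space Y]
    (f : {g : K → ℝ // Continuous g} → Y),
    Continuous f → Function.Surjective f → TopologicalSpace.MetrizableSpace Y

end FRU
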