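import Mathlib
import Pool.Agent.H14.FRU.Core

/-!
Definitions and statements of the modules of part T (topology, in Lean).
-/

open Set Topology Cardinal

namespace FRU

/-- the initial segment of length `k` of the sequence `x` -/
def pre (x : ℕ → Bool) (k : ℕ) : List Bool := (List.range k).map x

/-- the conditions on a ladder `h` and a family `r` of reals with functions `A X`, `j X` -/
structure Ladder {W : Type} [LinearOrder W] (h : W → W → ℕ → List Bool)
    (r : Set W → ℕ → Bool) (A j : Set W → W → ℕ) : Prop where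
  /-- countable sets are bounded -/
  bdd : ∀ C : Set W, C.Countable → ∃ a, ∀ c ∈ C, c < a
  inj : Function.Injective r
  len : ∀ d n l, {a | a < d ∧ (h d a n).length ≤ l}.Finite
  cap : ∀ X d, {a | a < d ∧ ¬ ((h d a (A X a)).length ≤ j X a ∨
    h d a (A X a) = pre (r X) (h d a (A X a)).length)}.Finite

/-! ### the space -/

/-- the set of isolated points: finite binary sequences, and blocks indexed by `W`; the members of
a block are triples `(i, t, a)` with `i` a parity, `t` a finite sequence and `a` at most the length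
of `t` -/
abbrev DD (W : Type) : Type := List Bool ⊕ (W × Bool × (Σ t : List Bool, Fin (t.length + 1)))

open Classical in
/-- the set `g X`: the branch of `r X`, and in block `α` all triples `(i, t, a)` with `a = A X α`,
`i` the parity of `X` at `α` and `t` an initial segment of `r X` of length at least `j X α` -/
def gg {W : Type} (r : Set W → ℕ → Bool) (A j : Set W → W → ℕ) (X : Set W) : Set (DD W) :=
  {z | (∃ k, z = Sum.inl (pre (r X) k)) ∨
    ∃ (α : W) (s : Σ t : List Bool, Fin (t.length + 1)), z = Sum.inr (α, decide (α ∈ X), s) ∧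
      s.1 = pre (r X) s.1.length ∧ s.2.1 = A X α ∧ j X α ≤ s.1.length}

/-- the space `Ψ` of a family of subsets of `D` -/
@[nolint unusedArguments]
def Psi {D I : Type} (_g : I → Set D) : Type := D ⊕ I

instance {D I : Type} (g : I → Set D) : TopologicalSpace (Psi g) where
  IsOpen U := ∀ i : I, (Sum.inr i : D ⊕ I) ∈ U → {d | d ∈ g i ∧ (Sum.inl d : D ⊕ I) ∉ U}.Finite
  isOpen_univ := fun i _ => Set.finite_empty.subset fun d hd => absurd (Set.mem_univ _) hd.2
  isOpen_inter := fun U V hU hV i hi => by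
    refine ((hU i hi.1).union (hV i hi.2)).subset fun d hd => ?_
    by_cases h : (Sum.inl d : D ⊕ I) ∈ U
    · exact Or.inr ⟨hd.1, fun h' => hd.2 ⟨h, h'⟩⟩
    · exact Or.inl ⟨hd.1, h⟩
  isOpen_sUnion := fun S hS i hi => by
    obtain ⟨U, hU, hi⟩ := hi
    refine (hS U hU i hi).subset fun d hd => ⟨hd.1, fun h => hd.2 ⟨U, hU, h⟩⟩

/-- an isolated point of `Ψ` -/
def Psi.pt {D I : Type} (g : I → Set D) (d : D) : Psi g := (Sum.inl d : D ⊕ I)

/-- the point of `Ψ` given by the set `g i` -/
def Psi.ix {D I : Type} (g : I → Set D) (i : I) : Psi g := (Sum.inr i : D ⊕ I)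

theorem Psi.isOpen_iff {D I : Type} {g : I → Set D} {U : Set (Psi g)} :
    IsOpen U ↔ ∀ i : I, Psi.ix g i ∈ U → {d | d ∈ g i ∧ Psi.pt g d ∉ U}.Finite := Iff.rfl

/-- the family is almost disjoint -/
def AD {D I : Type} (g : I → Set D) : Prop := ∀ i j, i ≠ j → (g i ∩ g j).Finite

/-- every set which is not almost covered by finitely many members of the family has an infinite
subset which is almost disjoint from all members -/
def NF {D I : Type} (g : I → Set D) : Prop :=
  ∀ E : Set D, (∀ F : Finset I, (E \ ⋃ i ∈ F, g i).Infinite) →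
    ∃ E', E' ⊆ E ∧ E'.Infinite ∧ ∀ i, (E' ∩ g i).Finite

/-- the space of continuous real functions with the topology of pointwise convergence -/
abbrev Cp (K : Type) [TopologicalSpace K] : Type := {f : K → ℝ // Continuous f}

/-- the characteristic function of a branch, as a real function on finite sequences -/
noncomputable def chi (x : ℕ → Bool) : List Bool → ℝ :=
  Set.indicator {s | ∃ k, s = pre x k} (fun _ => 1)

/-! ### statements -/

/-- PSI -/
def PSIStmt : Prop := ∀ (D I : Type) (g : I → Set D), AD g →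
  T2Space (Psi g) ∧ LocallyCompactSpace (Psi g)

/-- FUK: the one-point compactification is Fréchet–Urysohn -/
def FUKStmt : Prop := ∀ (D I : Type) (g : I → Set D), AD g → NF g →
  FrechetUrysohnSpace (OnePoint (Psi g))

/-- ADF: the sets `g X` are almost disjoint -/
def ADFStmt : Prop := ∀ (W : Type) [LinearOrder W] (h : W → W → ℕ → List Bool)
  (r : Set W → ℕ → Bool) (A j : Set W → W → ℕ), Ladder h r A j → AD (gg r A j)

/-- TRC: the sets `g X` can be recognized by a finite-to-one function to finite sequences, below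
each `d` -/
def TRCStmt : Prop := ∀ (W : Type) [LinearOrder W] (h : W → W → ℕ → List Bool)
  (r : Set W → ℕ → Bool) (A j : Set W → W → ℕ), Ladder h r A j → ∀ d : W,
  ∃ H : DD W → List Bool,
    (∀ s, {z : DD W | (∀ α y, z = Sum.inr (α, y) → α < d) ∧ H z = s}.Finite) ∧
    ∀ X, {z | z ∈ gg r A j X ∧ (∀ α y, z = Sum.inr (α, y) → α < d) ∧
      ¬ ∃ k, H z = pre (r X) k}.Finite

/-- NFP: the property NF for the sets `g X` -/
def NFPStmt : Prop := ∀ (W : Type) [LinearOrder W] (h : W → W → ℕ → List Bool)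
  (r : Set W → ℕ → Bool) (A j : Set W → W → ℕ), Ladder h r A j → NF (gg r A j)

/-- BRC: the characteristic functions of branches are a compact set -/
def BRCStmt : Prop := IsCompact (Set.range chi)

/-- URN: separation by a continuous function on the complement of a compact set -/
def URNStmt : Prop := ∀ (S T : Type) [Countable S] [Countable T] (B : Set (S → ℝ)), IsCompact B →
  ∀ T1 : Set T, ∃ P : (S → ℝ) × (T → ℝ) → ℝ, (∀ p, 0 ≤ P p ∧ P p ≤ 1) ∧
    ContinuousOn P {p | ¬ (p.1 ∈ B ∧ p.2 = 0)} ∧
    (∀ v ∈ B, ∀ u : Set T, u.Nonempty → u ⊆ T1 → P (v, u.indicator (fun _ => 1)) = 1) ∧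
    ∀ v ∈ B, ∀ u : Set T, u.Nonempty → u ⊆ T1ᶜ → P (v, u.indicator (fun _ => 1)) = 0

/-- NZB: a continuous function whose restriction to the finite sequences is the characteristic
function of a branch is not zero on the block `α` -/
def NZBStmt : Prop := ∀ (W : Type) [LinearOrder W] (h : W → W → ℕ → List Bool)
  (r : Set W → ℕ → Bool) (A j : Set W → W → ℕ), Ladder h r A j →
  ∀ (f : OnePoint (Psi (gg r A j)) → ℝ), Continuous f → ∀ (x : ℕ → Bool) (α : W),
  (∀ s, f (Psi.pt (gg r A j) (Sum.inl s) : Psi (gg r A j)) = chi x s) →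
  ∃ y, f (Psi.pt (gg r A j) (Sum.inr (α, y)) : Psi (gg r A j)) ≠ 0

/-- CHF: the characteristic function of the point `X` together with the set `g X` is continuous -/
def CHFStmt : Prop := ∀ (D I : Type) (g : I → Set D), AD g → ∀ i : I,
  ∃ f : Cp (OnePoint (Psi g)), (∀ d, f.1 (Psi.pt g d : Psi g) = (g i).indicator (fun _ => 1) d)

/-- MPA: the functionals -/
def MPAStmt : Prop := ∀ (W : Type) [LinearOrder W] (h : W → W → ℕ → List Bool)
  (r : Set W → ℕ → Bool) (A j : Set W → W → ℕ), Ladder h r A j →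
  ∃ P : W → Cp (OnePoint (Psi (gg r A j))) → ℝ, (∀ α, Continuous (P α)) ∧
    (∀ α f, 0 ≤ P α f ∧ P α f ≤ 1) ∧
    ∀ X : Set W, ∃ f, ∀ α, (α ∈ X → P α f = 1) ∧ (α ∉ X → P α f = 0)

/-- SRJ: a surjection onto a cube -/
def SRJStmt : Prop := ∀ (W C : Type) [TopologicalSpace C] [Infinite W] (P : W → C → ℝ),
  (∀ α, Continuous (P α)) → (∀ α f, 0 ≤ P α f ∧ P α f ≤ 1) →
  (∀ X : Set W, ∃ f, ∀ α, (α ∈ X → P α f = 1) ∧ (α ∉ X → P α f = 0)) →
  ∃ Q : C → (W → unitInterval), Continuous Q ∧ Function.Surjective Q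

/-- NMZ: uncountable cubes are not metrizable -/
def NMZStmt : Prop := ∀ (W : Type), Uncountable W →
  ¬ TopologicalSpace.MetrizableSpace (W → unitInterval)

/-- LZQ: Luzin's axiom implies a positive answer -/
def LZQStmt : Prop := (2 : Cardinal.{0}) ^ (ℵ₀ : Cardinal.{0}) < 2 ^ (ℵ₁ : Cardinal.{0}) → Question

/-- ZFL: the ladder principle for the class of all sets -/
def ZFLStmt : Prop := LadderPrinciple (fun x y : ZFSet.{0} => x ∈ y) →
  ∃ (W : Type) (_ : LinearOrder W) (h : W → W → ℕ → List Bool)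
    (r : Set W → ℕ → Bool) (A j : Set W → W → ℕ), Ladder h r A j

/-- ZFZ: Luzin's axiom for the class of all sets -/
def ZFZStmt : Prop := LuzinAxiom (fun x y : ZFSet.{0} => x ∈ y) →
  (2 : Cardinal.{0}) ^ (ℵ₀ : Cardinal.{0}) < 2 ^ (ℵ₁ : Cardinal.{0})

end FRU
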