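import Pool.Agent.H14.FRU.Stmts

/-!
Module AM2: amalgamation of conditions of the second poset.
-/

set_option linter.unusedVariables false
set_option synthInstance.maxSize 100000

namespace SW.FU

section
variable {M : Type} [SetStr M] [ZF M]

theorem am2_bdd {x : M} (hx : Fnt x) : (∀ y, E y x → E y om) → ∃ m, E m om ∧ ∀ y, E y x → E y m := by
  refine finF.ind (C := fun x : M => (∀ y : M, E y x → E y om) → ∃ m : M, E m om ∧
    ∀ y : M, E y x → E y m) inferInstance ?_ ?_ x hx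
  · exact fun _ => ⟨emp, emp_mem_om, fun y hy => absurd hy (not_mem_emp y)⟩
  · intro x a _ _ ih h
    obtain ⟨m, hm, hb⟩ := ih fun y hy => h y (mem_ins.2 (Or.inl hy))
    have ha : E a om := h a (mem_ins.2 (Or.inr rfl))
    rcases (Ord_nat hm).tri (Ord_nat ha) with h1 | h1 | h1
    · refine ⟨suc a, suc_mem_om ha, fun y hy => ?_⟩
      rw [mem_ins] at hy
      rw [mem_suc]
      rcases hy with hy | rfl
      · exact Or.inl ((Ord_nat ha).trans h1 (hb y hy))
      · exact Or.inr rfl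
    · refine ⟨suc a, suc_mem_om ha, fun y hy => ?_⟩
      rw [mem_ins] at hy
      rw [mem_suc]
      rcases hy with hy | rfl
      · exact Or.inl (by rw [← h1]; exact hb y hy)
      · exact Or.inr rfl
    · refine ⟨m, hm, fun y hy => ?_⟩
      rw [mem_ins] at hy
      rcases hy with hy | rfl
      · exact hb y hy
      · exact h1

/-- a bound for the values of `A` on finite sets -/
theorem am2_big {w L U A R : M} (hk : K3 w L U A R) {g d n : M} (hg : Fnt g) (hd : Fnt d)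
    (hgL : Sub g L) (hdw : Sub d w) (hn : E n om) : ∃ n', E n' om ∧ Sub n n' ∧
    ∀ S α a, E S g → E α d → Et A S α a → E a n' := by
  have hdf : Fn1 (fun z : M => the (fun a : M => Et A (fs z) (sn z) a)) := inferInstance
  have hval : ∀ S α a, E S g → E α d → Et A S α a →
      the (fun a : M => Et A (fs (opair S α)) (sn (opair S α)) a) = a := by
    intro S α a hS hα ha
    refine the_eq (by rw [fs_op, sn_op]; exact ha) fun z hz => ?_
    rw [fs_op, sn_op] at hz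
    exact hk.uq S α z a hz ha
  obtain ⟨m, hm, hb⟩ := am2_bdd (x := img (prod g d) (fun z : M => the (fun a : M =>
      Et A (fs z) (sn z) a))) (finF.img _ hdf (finF.prod hg hd)) (by
    intro y hy
    rw [mem_img' hdf] at hy
    obtain ⟨z, hz, rfl⟩ := hy
    obtain ⟨S, α, hS, hα, rfl⟩ := mem_prod'.1 hz
    obtain ⟨a, ha, hA⟩ := hk.tot S α (hgL _ hS) (hdw _ hα)
    rw [hval S α a hS hα hA]
    exact ha)
  have hb' : ∀ S α a, E S g → E α d → Et A S α a → E a m := by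
    intro S α a hS hα ha
    refine hb a ?_
    rw [mem_img' hdf]
    exact ⟨opair S α, mem_prod.2 ⟨hS, hα⟩, (hval S α a hS hα ha).symm⟩
  rcases (Ord_nat hm).tri (Ord_nat hn) with h1 | h1 | h1
  · exact ⟨n, hn, Sub.refl n, fun S α a hS hα ha => (Ord_nat hn).trans h1 (hb' S α a hS hα ha)⟩
  · exact ⟨n, hn, Sub.refl n, fun S α a hS hα ha => by rw [← h1]; exact hb' S α a hS hα ha⟩
  · exact ⟨m, hm, (Ord_nat hm).sub_of_mem h1, hb'⟩

/-- the new `j` -/
theorem am2_j (g d m j1 j2 : M) (hg : Fnt g) (hd : Fnt d) (h1 : Fnt j1) (h2 : Fnt j2) :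
    ∃ j, Fnt j ∧ (∀ z, E z j → E z j1 ∨ E z j2 ∨ ∃ S α, E S g ∧ E α d ∧
      z = opair (opair S α) m) ∧
    ∀ S α v, Jv j S α v ↔ Jv j1 S α v ∨ Jv j2 S α v ∨
      (E S g ∧ E α d ∧ v = m ∧ ∀ v', ¬ Jv j1 S α v' ∧ ¬ Jv j2 S α v') := by
  have hC : Cl (fun z : M => ∀ v', ¬ E (opair (fs z) v') j1 ∧ ¬ E (opair (fs z) v') j2) :=
    inferInstance
  refine ⟨bun (bun j1 j2) (sep (prod (prod g d) (sing m)) (fun z : M =>
    ∀ v', ¬ E (opair (fs z) v') j1 ∧ ¬ E (opair (fs z) v') j2)), ?_, ?_, ?_⟩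
  · exact finF.bun (finF.bun h1 h2) (finF.sub (finF.prod (finF.prod hg hd)
      (finF.ins finF.emp : Fnt (ins m emp))) fun z hz => by
        rw [mem_sep' hC] at hz
        obtain ⟨y, v, hy, hv, rfl⟩ := mem_prod'.1 hz.1
        rw [mem_prod, mem_ins]
        exact ⟨hy, Or.inr (mem_sing.1 hv)⟩)
  · intro z hz
    rw [mem_bun, mem_bun] at hz
    rcases hz with (hz | hz) | hz
    · exact Or.inl hz
    · exact Or.inr (Or.inl hz)
    · rw [mem_sep' hC] at hz
      obtain ⟨y, v, hy, hv, rfl⟩ := mem_prod'.1 hz.1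
      obtain ⟨S, α, hS, hα, rfl⟩ := mem_prod'.1 hy
      rw [mem_sing] at hv
      subst hv
      exact Or.inr (Or.inr ⟨S, α, hS, hα, rfl⟩)
  · intro S α v
    unfold Jv
    rw [mem_bun, mem_bun, mem_sep' hC, mem_prod, mem_prod, mem_sing, fs_op, or_assoc]
    constructor
    · rintro (h | h | ⟨⟨⟨h3, h4⟩, h5⟩, h6⟩)
      · exact Or.inl h
      · exact Or.inr (Or.inl h)
      · exact Or.inr (Or.inr ⟨h3, h4, h5, h6⟩)
    · rintro (h | h | ⟨h3, h4, h5, h6⟩)
      · exact Or.inl h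
      · exact Or.inr (Or.inl h)
      · exact Or.inr (Or.inr ⟨⟨⟨h3, h4⟩, h5⟩, h6⟩)

/-- the new `t`; `B α a` is the set used at new places -/
theorem am2_t (d m n t1 t2 : M) (B : M → M → M) (hB : Fn2 B) (hd : Fnt d) (hm : Fnt m)
    (h1 : Fnt t1) (h2 : Fnt t2) :
    ∃ t, Fnt t ∧ (∀ z, E z t → E z t1 ∨ E z t2 ∨ ∃ δ α a, E δ d ∧ E α d ∧ E a m ∧ E α δ ∧
      z = opair (opair δ (opair α a)) (opair n (B α a))) ∧
    ∀ δ α a k F, Tv t δ α a k F ↔ Tv t1 δ α a k F ∨ Tv t2 δ α a k F ∨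
      (E δ d ∧ E α d ∧ E a m ∧ E α δ ∧ k = n ∧ F = B α a ∧
        ∀ k' F', ¬ Tv t1 δ α a k' F' ∧ ¬ Tv t2 δ α a k' F') := by
  have hC : Cl (fun y : M => E (fs (sn y)) (fs y) ∧ ∀ k' F' : M,
      ¬ E (opair y (opair k' F')) t1 ∧ ¬ E (opair y (opair k' F')) t2) := inferInstance
  have hf : Fn1 (fun y : M => opair y (opair n (B (fs (sn y)) (sn (sn y))))) := by
    have : DfT (fun v : Fin 1 → M => B (fs (sn (v 0))) (sn (sn (v 0)))) :=
      hB.comp2 (f := B) inferInstance inferInstance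
    infer_instance
  refine ⟨bun (bun t1 t2) (img (sep (prod d (prod d m)) (fun y : M => E (fs (sn y)) (fs y) ∧
    ∀ k' F' : M, ¬ E (opair y (opair k' F')) t1 ∧ ¬ E (opair y (opair k' F')) t2))
    (fun y : M => opair y (opair n (B (fs (sn y)) (sn (sn y)))))), ?_, ?_, ?_⟩
  · exact finF.bun (finF.bun h1 h2) (finF.img _ hf (finF.sub (finF.prod hd (finF.prod hd hm))
      fun z hz => ((mem_sep' hC).1 hz).1))
  · intro z hz
    rw [mem_bun, mem_bun] at hz
    rcases hz with (hz | hz) | hz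
    · exact Or.inl hz
    · exact Or.inr (Or.inl hz)
    · rw [mem_img' hf] at hz
      obtain ⟨y, hy, rfl⟩ := hz
      rw [mem_sep' hC] at hy
      obtain ⟨hy, hy1, _⟩ := hy
      obtain ⟨δ, y', hδ, hy', rfl⟩ := mem_prod'.1 hy
      obtain ⟨α, a, hα, ha, rfl⟩ := mem_prod'.1 hy'
      simp only [fs_op, sn_op] at hy1 ⊢
      exact Or.inr (Or.inr ⟨δ, α, a, hδ, hα, ha, hy1, rfl⟩)
  · intro δ α a k F
    unfold Tv
    rw [mem_bun, mem_bun, mem_img' hf, or_assoc]
    refine or_congr_right (or_congr_right ?_)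
    constructor
    · rintro ⟨y, hy, he⟩
      rw [opair_inj] at he
      obtain ⟨rfl, he⟩ := he
      rw [mem_sep' hC, mem_prod, mem_prod] at hy
      simp only [fs_op, sn_op] at hy he
      rw [opair_inj] at he
      exact ⟨hy.1.1, hy.1.2.1, hy.1.2.2, hy.2.1, he.1, he.2, hy.2.2⟩
    · rintro ⟨hδ, hα, ha, h3, rfl, rfl, h4⟩
      refine ⟨opair δ (opair α a), ?_, ?_⟩
      · rw [mem_sep' hC, mem_prod, mem_prod]
        simp only [fs_op, sn_op]
        exact ⟨⟨hδ, hα, ha⟩, h3, h4⟩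
      · simp only [fs_op, sn_op]

end

theorem fru_am2 (huf : UF2Stmt) : AM2Stmt := by
  intro M _ _ w L U A R p q hk hp hq hn hr hj ht hsep hdist
  obtain ⟨hpU, hpc⟩ := mem_P2.1 hp
  obtain ⟨hqU, hqc⟩ := mem_P2.1 hq
  obtain ⟨_, ⟨pg1, pg2⟩, ⟨pd1, pd2⟩, pn, ⟨pr1, pr2⟩, ⟨pj1, pj2, pj3, pj4⟩, ⟨pt1, pt2, pt3, pt4⟩, pA⟩ := id hpc
  obtain ⟨_, ⟨qg1, qg2⟩, ⟨qd1, qd2⟩, qn, ⟨qr1, qr2⟩, ⟨qj1, qj2, qj3, qj4⟩, ⟨qt1, qt2, qt3, qt4⟩, qA⟩ := id hqc
  -- the components
  obtain ⟨g, hg⟩ : ∃ g, g = bun (cg p) (cg q) := ⟨_, rfl⟩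
  obtain ⟨d, hd⟩ : ∃ d, d = bun (cd p) (cd q) := ⟨_, rfl⟩
  have hgm : ∀ S, E S g ↔ E S (cg p) ∨ E S (cg q) := fun S => by rw [hg, mem_bun]
  have hdm : ∀ S, E S d ↔ E S (cd p) ∨ E S (cd q) := fun S => by rw [hd, mem_bun]
  have hgf : Fnt g := by rw [hg]; exact finF.bun pg1 qg1
  have hdf : Fnt d := by rw [hd]; exact finF.bun pd1 qd1
  have hgL : Sub g L := fun S hS => ((hgm S).1 hS).elim (pg2 S) (qg2 S)
  have hdw : Sub d w := fun S hS => ((hdm S).1 hS).elim (pd2 S) (qd2 S)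
  obtain ⟨n', hn', hnn, hnA⟩ := am2_big hk hgf hdf hgL hdw pn
  obtain ⟨j, j1, j2, j3⟩ := am2_j g d n' (cj p) (cj q) hgf hdf pj1 qj1
  obtain ⟨B, hB, hBm⟩ : ∃ B : M → M → M, Fn2 B ∧ ∀ α a i, E i (B α a) ↔ E i (cn p) ∧
      ∃ S, E S (cg p) ∧ E S (cg q) ∧ Et A S α a ∧ Rv (cr p) S i :=
    ⟨fun α a : M => sep (cn p) (fun i => ∃ S, E S (cg p) ∧ E S (cg q) ∧
      Et A S α a ∧ Rv (cr p) S i), inferInstance, fun α a i => mem_sep' inferInstance⟩
  obtain ⟨t, t1, t2, t3⟩ := am2_t d n' (cn p) (ct p) (ct q) B hB hdf (finF.nat hn') pt1 qt1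
  -- data of the entries
  have jin1 : ∀ {S α v}, Jv (cj p) S α v → E S (cg p) ∧ E α (cd p) ∧ E v om := by
    intro S α v h
    obtain ⟨S', α', v', h1, h2, h3, h4⟩ := pj2 _ h
    rw [opair_inj, opair_inj] at h4
    obtain ⟨⟨rfl, rfl⟩, rfl⟩ := h4
    exact ⟨h1, h2, h3⟩
  have jin2 : ∀ {S α v}, Jv (cj q) S α v → E S (cg q) ∧ E α (cd q) ∧ E v om := by
    intro S α v h
    obtain ⟨S', α', v', h1, h2, h3, h4⟩ := qj2 _ h
    rw [opair_inj, opair_inj] at h4
    obtain ⟨⟨rfl, rfl⟩, rfl⟩ := h4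
    exact ⟨h1, h2, h3⟩
  have tin1 : ∀ {δ α a k F}, Tv (ct p) δ α a k F → E δ (cd p) ∧ E α (cd p) ∧ E α δ ∧
      E a (cn p) ∧ E k (suc (cn p)) ∧ Sub F k := by
    intro δ α a k F h
    obtain ⟨δ', α', a', k', F', h1, h2, h3, h4, h5, h6, h7⟩ := pt2 _ h
    rw [opair_inj, opair_inj, opair_inj, opair_inj] at h7
    obtain ⟨⟨rfl, rfl, rfl⟩, rfl, rfl⟩ := h7
    exact ⟨h1, h2, h3, h4, h5, h6⟩
  have tin2 : ∀ {δ α a k F}, Tv (ct q) δ α a k F → E δ (cd q) ∧ E α (cd q) ∧ E α δ ∧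
      E a (cn q) ∧ E k (suc (cn q)) ∧ Sub F k := by
    intro δ α a k F h
    obtain ⟨δ', α', a', k', F', h1, h2, h3, h4, h5, h6, h7⟩ := qt2 _ h
    rw [opair_inj, opair_inj, opair_inj, opair_inj] at h7
    obtain ⟨⟨rfl, rfl, rfl⟩, rfl, rfl⟩ := h7
    exact ⟨h1, h2, h3, h4, h5, h6⟩
  have hsuc : ∀ k, E k (suc (cn p)) → E k (suc n') := by
    intro k hk'
    rw [mem_suc] at hk' ⊢
    rcases hk' with h | h
    · exact Or.inl (hnn k h)
    · rw [h]
      exact ((Ord_nat pn).sub_iff (Ord_nat hn')).1 hnn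
  have hcomp : cg (pk g d n' (bun (cr p) (cr q)) j t) = g ∧
      cd (pk g d n' (bun (cr p) (cr q)) j t) = d ∧
      cn (pk g d n' (bun (cr p) (cr q)) j t) = n' ∧
      cr (pk g d n' (bun (cr p) (cr q)) j t) = bun (cr p) (cr q) ∧
      cj (pk g d n' (bun (cr p) (cr q)) j t) = j ∧ ct (pk g d n' (bun (cr p) (cr q)) j t) = t :=
    ⟨cg_pk .., cd_pk .., cn_pk .., cr_pk .., cj_pk .., ct_pk ..⟩
  generalize hz : pk g d n' (bun (cr p) (cr q)) j t = z at hcomp
  obtain ⟨zg, zd, zn, zr, zj, zt⟩ := hcomp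
  have hrm : ∀ S i, Rv (cr z) S i ↔ Rv (cr p) S i ∨ Rv (cr q) S i := by
    intro S i; rw [zr]; unfold Rv; rw [mem_bun]
  have hcond : Cn2 w L A z := by
    unfold Cn2
    rw [zg, zd, zn, zr, zj, zt]
    refine ⟨hz.symm, ⟨hgf, hgL⟩, ⟨hdf, hdw⟩, hn', ⟨finF.bun pr1 qr1, ?_⟩,
      ⟨j1, ?_, ?_, ?_⟩, ⟨t1, ?_, ?_, ?_⟩, ?_⟩
    · intro y hy
      rw [mem_bun] at hy
      rcases hy with hy | hy
      · obtain ⟨S, i, h1, h2, h3⟩ := pr2 y hy
        exact ⟨S, i, (hgm S).2 (Or.inl h1), hnn i h2, h3⟩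
      · obtain ⟨S, i, h1, h2, h3⟩ := qr2 y hy
        exact ⟨S, i, (hgm S).2 (Or.inr h1), hnn i (hn ▸ h2), h3⟩
    · intro y hy
      rcases j2 y hy with h | h | ⟨S, α, h1, h2, h3⟩
      · obtain ⟨S, α, m, h1, h2, h3, h4⟩ := pj2 y h
        exact ⟨S, α, m, (hgm S).2 (Or.inl h1), (hdm α).2 (Or.inl h2), h3, h4⟩
      · obtain ⟨S, α, m, h1, h2, h3, h4⟩ := qj2 y h
        exact ⟨S, α, m, (hgm S).2 (Or.inr h1), (hdm α).2 (Or.inr h2), h3, h4⟩
      · exact ⟨S, α, n', h1, h2, hn', h3⟩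
    · intro S α hS hα
      by_cases h : ∃ v', Jv (cj p) S α v' ∨ Jv (cj q) S α v'
      · obtain ⟨v', h | h⟩ := h
        · exact ⟨v', (j3 S α v').2 (Or.inl h)⟩
        · exact ⟨v', (j3 S α v').2 (Or.inr (Or.inl h))⟩
      · exact ⟨n', (j3 S α n').2 (Or.inr (Or.inr ⟨hS, hα, rfl, fun v' =>
          ⟨fun h' => h ⟨v', Or.inl h'⟩, fun h' => h ⟨v', Or.inr h'⟩⟩⟩))⟩
    · have key : ∀ {S α m m'}, Jv (cj p) S α m → Jv (cj q) S α m' → m = m' := by
        intro S α m m' h h'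
        obtain ⟨a1, a2, _⟩ := jin1 h
        obtain ⟨b1, b2, _⟩ := jin2 h'
        exact qj4 S α m m' ((hj S α m a1 b1 a2 b2).1 h) h'
      intro S α m m' h h'
      rw [j3] at h h'
      rcases h with h | h | ⟨_, _, h, h2⟩
      · rcases h' with h' | h' | ⟨_, _, h', h3⟩
        · exact pj4 S α m m' h h'
        · exact key h h'
        · exact absurd h (h3 m).1
      · rcases h' with h' | h' | ⟨_, _, h', h3⟩
        · exact (key h' h).symm
        · exact qj4 S α m m' h h'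
        · exact absurd h (h3 m).2
      · rcases h' with h' | h' | ⟨_, _, h', h3⟩
        · exact absurd h' (h2 m').1
        · exact absurd h' (h2 m').2
        · rw [h, h']
    · intro y hy
      rcases t2 y hy with h | h | ⟨δ, α, a, h1, h2, h3, h4, h5⟩
      · obtain ⟨δ, α, a, k, F, h1, h2, h3, h4, h5, h6, h7⟩ := pt2 y h
        exact ⟨δ, α, a, k, F, (hdm δ).2 (Or.inl h1), (hdm α).2 (Or.inl h2), h3, hnn a h4,
          hsuc k h5, h6, h7⟩
      · obtain ⟨δ, α, a, k, F, h1, h2, h3, h4, h5, h6, h7⟩ := qt2 y h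
        exact ⟨δ, α, a, k, F, (hdm δ).2 (Or.inr h1), (hdm α).2 (Or.inr h2), h3,
          hnn a (hn ▸ h4), hsuc k (hn ▸ h5), h6, h7⟩
      · exact ⟨δ, α, a, cn p, B α a, h1, h2, h4, h3, hsuc _ (mem_suc.2 (Or.inr rfl)),
          fun i hi => ((hBm α a i).1 hi).1, h5⟩
    · intro δ α a hδ hα hαδ ha
      by_cases h : ∃ k F, Tv (ct p) δ α a k F ∨ Tv (ct q) δ α a k F
      · obtain ⟨k, F, h | h⟩ := h
        · exact ⟨k, F, (t3 δ α a k F).2 (Or.inl h)⟩
        · exact ⟨k, F, (t3 δ α a k F).2 (Or.inr (Or.inl h))⟩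
      · exact ⟨cn p, B α a, (t3 δ α a _ _).2 (Or.inr (Or.inr ⟨hδ, hα, ha, hαδ, rfl, rfl,
          fun k' F' => ⟨fun h' => h ⟨k', F', Or.inl h'⟩, fun h' => h ⟨k', F', Or.inr h'⟩⟩⟩))⟩
    · have key : ∀ {δ α a k F k' F'}, Tv (ct p) δ α a k F → Tv (ct q) δ α a k' F' →
          k = k' ∧ F = F' := by
        intro δ α a k F k' F' h h'
        obtain ⟨a1, a2, _⟩ := tin1 h
        obtain ⟨b1, b2, _⟩ := tin2 h'
        exact qt4 δ α a k F k' F' ((ht δ α a k F a1 b1 a2 b2).1 h) h'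
      intro δ α a k F k' F' h h'
      rw [t3] at h h'
      rcases h with h | h | ⟨_, _, _, _, h, h0, h2⟩
      · rcases h' with h' | h' | ⟨_, _, _, _, h', h0', h3⟩
        · exact pt4 δ α a k F k' F' h h'
        · exact key h h'
        · exact absurd h (h3 k F).1
      · rcases h' with h' | h' | ⟨_, _, _, _, h', h0', h3⟩
        · obtain ⟨e1, e2⟩ := key h' h
          exact ⟨e1.symm, e2.symm⟩
        · exact qt4 δ α a k F k' F' h h'
        · exact absurd h (h3 k F).2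
      · rcases h' with h' | h' | ⟨_, _, _, _, h', h0', h3⟩
        · exact absurd h' (h2 k' F').1
        · exact absurd h' (h2 k' F').2
        · exact ⟨by rw [h, h'], by rw [h0, h0']⟩
    · intro S α a hS hα ha
      exact hnA S α a hS hα ha
  have hzP : E z (P2 w L U A) := mem_P2.2 ⟨Or.inl ((huf M w L U A R hk).2.2.1 z hcond), hcond⟩
  refine ⟨z, hzP, ?_, ?_⟩
  · -- below p
    show Le2 A z p
    refine ⟨?_, ?_, ?_, ?_, ?_, ?_, ?_, ?_⟩
    · rw [zg]; exact fun S hS => (hgm S).2 (Or.inl hS)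
    · rw [zd]; exact fun S hS => (hdm S).2 (Or.inl hS)
    · rw [zn]; exact hnn
    · rw [zj]
      intro y hy
      obtain ⟨S, α, m, _, _, _, rfl⟩ := pj2 y hy
      exact (j3 S α m).2 (Or.inl hy)
    · rw [zt]
      intro y hy
      obtain ⟨δ, α, a, k, F, _, _, _, _, _, _, rfl⟩ := pt2 y hy
      exact (t3 δ α a k F).2 (Or.inl hy)
    · intro S i hS hi
      rw [hrm]
      refine ⟨fun h => h.elim id fun h => ?_, Or.inl⟩
      obtain ⟨S', i', h1, h2, h3⟩ := qr2 _ h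
      rw [opair_inj] at h3
      obtain ⟨rfl, rfl⟩ := h3
      exact (hr S i hS h1).2 h
    · intro δ α a k F hδ h hno
      rw [zt, t3] at h
      rcases h with h | h | ⟨_, _, _, _, h, _⟩
      · exact absurd h hno
      · obtain ⟨b1, b2, b3, b4, _⟩ := tin2 h
        have hα : E α (cd p) := (hsep δ α hδ b1 b3).2 b2
        exact absurd ((ht δ α a k F hδ b1 hα b2).2 h) hno
      · rw [h]; exact Sub.refl _
    · intro δ α S a k F m hδ hα hα' hS hAa h hjm
      rw [zd, hdm] at hα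
      rw [zt, t3] at h
      rw [zj, j3] at hjm
      have hαq : E α (cd q) := hα.resolve_left hα'
      rcases h with h | h | ⟨_, _, _, h4, rfl, rfl, h5⟩
      · exact absurd (tin1 h).2.1 hα'
      · obtain ⟨b1, b2, b3, b4, _⟩ := tin2 h
        exact absurd ((hsep δ α hδ b1 b3).2 b2) hα'
      · by_cases hSq : E S (cg q)
        · right
          intro i hi
          rw [hBm, hrm]
          have hx : ¬ (E α (cd p) ↔ E α (cd q)) := fun h => hα' (h.2 hαq)
          constructor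
          · rintro ⟨_, S', c1, c2, c3, c4⟩
            have : S' = S := by
              by_contra hne
              exact hdist α S' S a hx c1 c2 hS hSq hne c3 hAa
            subst this
            exact Or.inl c4
          · rintro (h | h)
            · exact ⟨hi, S, hS, hSq, hAa, h⟩
            · exact ⟨hi, S, hS, hSq, hAa, (hr S i hS hSq).2 h⟩
        · left
          rcases hjm with h | h | ⟨_, _, h, _⟩
          · exact absurd (jin1 h).2.1 hα'
          · exact absurd (jin2 h).1 hSq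
          · rw [h]; exact hnn
  · -- below q
    show Le2 A z q
    refine ⟨?_, ?_, ?_, ?_, ?_, ?_, ?_, ?_⟩
    · rw [zg]; exact fun S hS => (hgm S).2 (Or.inr hS)
    · rw [zd]; exact fun S hS => (hdm S).2 (Or.inr hS)
    · rw [zn, ← hn]; exact hnn
    · rw [zj]
      intro y hy
      obtain ⟨S, α, m, _, _, _, rfl⟩ := qj2 y hy
      exact (j3 S α m).2 (Or.inr (Or.inl hy))
    · rw [zt]
      intro y hy
      obtain ⟨δ, α, a, k, F, _, _, _, _, _, _, rfl⟩ := qt2 y hy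
      exact (t3 δ α a k F).2 (Or.inr (Or.inl hy))
    · intro S i hS hi
      rw [hrm]
      refine ⟨fun h => h.elim (fun h => ?_) id, Or.inr⟩
      obtain ⟨S', i', h1, h2, h3⟩ := pr2 _ h
      rw [opair_inj] at h3
      obtain ⟨rfl, rfl⟩ := h3
      exact (hr S i h1 hS).1 h
    · intro δ α a k F hδ h hno
      rw [zt, t3] at h
      rcases h with h | h | ⟨_, _, _, _, h, _⟩
      · obtain ⟨b1, b2, b3, b4, _⟩ := tin1 h
        have hα : E α (cd q) := (hsep δ α b1 hδ b3).1 b2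
        exact absurd ((ht δ α a k F b1 hδ b2 hα).1 h) hno
      · exact absurd h hno
      · rw [h, hn]; exact Sub.refl _
    · intro δ α S a k F m hδ hα hα' hS hAa h hjm
      rw [zd, hdm] at hα
      rw [zt, t3] at h
      rw [zj, j3] at hjm
      have hαp : E α (cd p) := hα.resolve_right hα'
      rcases h with h | h | ⟨_, _, _, h4, rfl, rfl, h5⟩
      · obtain ⟨b1, b2, b3, b4, _⟩ := tin1 h
        exact absurd ((hsep δ α b1 hδ b3).1 b2) hα'
      · exact absurd (tin2 h).2.1 hα'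
      · by_cases hSp : E S (cg p)
        · right
          intro i hi
          rw [hBm, hrm]
          have hx : ¬ (E α (cd p) ↔ E α (cd q)) := fun h => hα' (h.1 hαp)
          constructor
          · rintro ⟨_, S', c1, c2, c3, c4⟩
            have : S' = S := by
              by_contra hne
              exact hdist α S' S a hx c1 c2 hSp hS hne c3 hAa
            subst this
            exact Or.inl c4
          · rintro (h | h)
            · exact ⟨hi, S, hSp, hS, hAa, h⟩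
            · exact ⟨hi, S, hSp, hS, hAa, (hr S i hSp hS).2 h⟩
        · left
          rcases hjm with h | h | ⟨_, _, h, _⟩
          · exact absurd (jin1 h).1 hSp
          · exact absurd (jin2 h).2.1 hα'
          · rw [h]; exact hnn

end SW.FU
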