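import Pool.Agent.H14.FRU.Main
import Pool.Agent.H14.FRU.AM2
import Pool.Agent.H12.MA.DEL
import Pool.Agent.H93.CT.All
import Pool.Agent.H17.FRU.UC1
import Pool.Agent.H21.FRU.AE2
import Pool.Agent.H21.FRU.DF2
import Pool.Agent.H21.FRU.MX1
import Pool.Agent.H21.FRU.UF2
import Pool.Agent.H22.FRU.CHL
import Pool.Agent.H22.FRU.CVG
import Pool.Agent.H22.FRU.DL2
import Pool.Agent.H22.FRU.GJ2
import Pool.Agent.H22.FRU.UN2
import Pool.Agent.H22.FRU.WXG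
import Pool.Agent.H23.FRU.NM2
import Pool.Agent.H4.FRU.AG1
import Pool.Agent.H4.FRU.EX1
import Pool.Agent.H4.FRU.SC1
import Pool.Agent.H46.FRU.CP2
import Pool.Agent.H46.FRU.EX2
import Pool.Agent.H46.FRU.GH2
import Pool.Agent.H53.FRU.PLN
import Pool.Agent.H53.FRU.TY2
import Pool.Agent.H83.FRU.CC1
import Pool.Agent.H83.FRU.MXG
import Pool.Agent.H83.FRU.NM1
import Pool.Agent.H83.FRU.NNG

/-!
Assembly of the forcing part of project FRU.
-/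

set_option linter.unusedVariables false
set_option synthInstance.maxSize 100000

namespace SW.FU

theorem f_seq : SEQStmt := ma_seq u_acf u_cbt
theorem f_del : DELStmt := ma_del f_seq u_cbt u_w0

theorem f_mxg : MXGStmt := fru_mxg u_zorn
theorem f_nng : NNGStmt := fru_nng f_mxg u_acf
theorem f_cvg : CVGStmt := fru_cvg u_cbt u_acf
theorem f_wxg : WXGStmt := fru_wxg f_cvg u_cba
theorem f_mx1 : MX1Stmt := fru_mx1 u_bit
theorem f_sc1 : SC1Stmt := fru_sc1 u_cbt u_wf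
theorem f_ex1 : EX1Stmt := fru_ex1 u_cbt u_wf u_acf
theorem f_cc1 : CC1Stmt := fru_cc1 u_acf u_cba u_zfx
theorem f_ag1 : AG1Stmt := fru_ag1 u_wf f_ex1
theorem f_nm1 : NM1Stmt := fru_nm1 f_nng f_cc1 u_zfx u_hfx
theorem f_uc1 : UC1Stmt := fru_uc1 ma_fnx u_cba u_zfx u_hfx
theorem f_st1 : ST1Stmt := st1 u_w0 u_acx u_wpx f_mx1 f_sc1 f_ag1 f_nm1 f_uc1

theorem f_uf2 : UF2Stmt := fru_uf2 u_wf
theorem f_ex2 : EX2Stmt := fru_ex2 f_uf2
theorem f_df2 : DF2Stmt := fru_df2 f_uf2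
theorem f_am2 : AM2Stmt := fru_am2 f_uf2
theorem f_dl2 : DL2Stmt := fru_dl2 f_del
theorem f_ty2 : TY2Stmt := fru_ty2 u_cbt
theorem f_un2 : UN2Stmt := fru_un2 f_dl2 f_ty2 u_wf u_cbt
theorem f_cc2 : CC2Stmt := cc2 f_am2 f_un2
theorem f_gh2 : GH2Stmt := fru_gh2 f_ex2
theorem f_gj2 : GJ2Stmt := fru_gj2 f_ex2 f_df2
theorem f_cp2 : CP2Stmt := fru_cp2 f_ex2
theorem f_nm2 : NM2Stmt := fru_nm2 f_nng f_cc2 f_uf2
theorem f_st2 : ST2Stmt := st2 u_acx f_wxg f_cc2 f_gh2 f_gj2 f_cp2 f_nm2 fru_ae2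
theorem f_pln : PLNStmt := fru_pln u_acf ma_ctr

theorem f_ladder (M : Type) [SetStr M] [ZFC M] [Countable M] :
    ∃ (N₁ : Type) (_ : SetStr N₁) (_ : ZFC N₁) (i : M → N₁), IsGenExt i ∧
      ∃ (N : Type) (_ : SetStr N) (_ : ZFC N) (j : N₁ → N), IsGenExt j ∧ Countable N ∧
        _root_.FRU.LadderPrinciple (fun x y : N => E x y) :=
  ladder f_st1 f_st2 f_pln M

theorem f_luzin (M : Type) [SetStr M] [ZFC M] [Countable M] :
    ∃ (N : Type) (_ : SetStr N) (_ : ZFC N) (i : M → N), IsGenExt i ∧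
      _root_.FRU.LuzinAxiom (fun x y : N => E x y) := by
  obtain ⟨N, h1, h2, i, hi, hc⟩ := u_all.1 M
  exact ⟨N, h1, h2, i, hi, fru_chl N hc.1⟩

end SW.FU
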