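import Pool.Agent.H14.FRU.Core
import Pool.Agent.H35.SW.Core

/-!
Formulas of set theory and their truth for an arbitrary membership relation `e` (in any universe).
The ladder principle and Luzin's axiom are expressed by sentences.
-/

set_option linter.unusedSimpArgs false
set_option linter.unusedVariables false

namespace FRU

open SW

universe u

/-- `Holds e φ v`: the formula `φ` is true for the membership relation `e` and the values `v` of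
the variables. In `all f` the quantified variable has index `0`. -/
def Holds {V : Type u} (e : V → V → Prop) : {n : ℕ} → Fml n → (Fin n → V) → Prop
  | _, .mem i j, v => e (v i) (v j)
  | _, .eq i j, v => v i = v j
  | _, .bot, _ => False
  | _, .imp f g, v => Holds e f v → Holds e g v
  | _, .all f, v => ∀ x : V, Holds e f (Fin.cons x v)

variable {V : Type u} (e : V → V → Prop) {n : ℕ}

theorem holds_sat {M : Type} [SetStr M] (f : Fml n) (v : Fin n → M) :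
    Holds (fun x y : M => E x y) f v ↔ Sat f v := by
  induction f with
  | mem i j => exact Iff.rfl
  | eq i j => exact Iff.rfl
  | bot => exact Iff.rfl
  | imp f g hf hg => exact imp_congr (hf v) (hg v)
  | all f hf => exact forall_congr' fun x => hf (Fin.cons x v)

/-! ### connectives -/

def fNot (f : Fml n) : Fml n := .imp f .bot
def fOr (f g : Fml n) : Fml n := .imp (fNot f) g
def fAnd (f g : Fml n) : Fml n := fNot (.imp f (fNot g))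
def fIff (f g : Fml n) : Fml n := fAnd (.imp f g) (.imp g f)
def fEx (f : Fml (n + 1)) : Fml n := fNot (.all (fNot f))

section
variable {v : Fin n → V} {f g : Fml n}

@[simp] theorem h_mem {i j : Fin n} : Holds e (.mem i j) v ↔ e (v i) (v j) := Iff.rfl
@[simp] theorem h_eq {i j : Fin n} : Holds e (.eq i j) v ↔ v i = v j := Iff.rfl
@[simp] theorem h_bot : Holds e (.bot : Fml n) v ↔ False := Iff.rfl
@[simp] theorem h_imp : Holds e (.imp f g) v ↔ (Holds e f v → Holds e g v) := Iff.rfl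
@[simp] theorem h_all {f : Fml (n + 1)} :
    Holds e (.all f) v ↔ ∀ x : V, Holds e f (Fin.cons x v) := Iff.rfl
@[simp] theorem h_not : Holds e (fNot f) v ↔ ¬ Holds e f v := Iff.rfl
@[simp] theorem h_or : Holds e (fOr f g) v ↔ (Holds e f v ∨ Holds e g v) := by
  simp only [fOr, h_imp, h_not]; tauto
@[simp] theorem h_and : Holds e (fAnd f g) v ↔ (Holds e f v ∧ Holds e g v) := by
  simp only [fAnd, h_imp, h_not]; tauto
@[simp] theorem h_iff : Holds e (fIff f g) v ↔ (Holds e f v ↔ Holds e g v) := by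
  simp only [fIff, h_and, h_imp]; tauto
@[simp] theorem h_ex {f : Fml (n + 1)} :
    Holds e (fEx f) v ↔ ∃ x : V, Holds e f (Fin.cons x v) := by
  simp only [fEx, h_not, h_all]; push Not; rfl

end

/-! ### the notions -/

/-- the variable `i` below one more quantifier -/
abbrev s1 (i : Fin n) : Fin (n + 1) := i.succ

def fIncl (x y : Fin n) : Fml n :=
  .all (.imp (.mem 0 (s1 x)) (.mem 0 (s1 y)))

theorem h_Incl {v : Fin n → V} {x y : Fin n} :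
    Holds e (fIncl x y) v ↔ Incl e (v x) (v y) := by
  simp only [fIncl, Incl, h_all, h_imp, h_not, h_and, h_or, h_iff, h_ex, h_mem, h_eq,
  Fin.cons_zero, Fin.cons_succ]

def fIsOP (z a b : Fin n) : Fml n :=
  fEx (fEx (fAnd (.all (fIff (.mem 0 (s1 (s1 0))) (.eq 0 (s1 (s1 (s1 a)))))) (fAnd (.all (fIff
  (.mem 0 (s1 0)) (fOr (.eq 0 (s1 (s1 (s1 a)))) (.eq 0 (s1 (s1 (s1 b))))))) (.all (fIff (.mem 0
  (s1 (s1 (s1 z)))) (fOr (.eq 0 (s1 (s1 0))) (.eq 0 (s1 0))))))))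

theorem h_IsOP {v : Fin n → V} {z a b : Fin n} :
    Holds e (fIsOP z a b) v ↔ IsOP e (v z) (v a) (v b) := by
  simp only [fIsOP, IsOP, h_all, h_imp, h_not, h_and, h_or, h_iff, h_ex, h_mem, h_eq,
  Fin.cons_zero, Fin.cons_succ]

def fPairIn (a b R : Fin n) : Fml n :=
  fEx (fAnd (fIsOP 0 (s1 a) (s1 b)) (.mem 0 (s1 R)))

theorem h_PairIn {v : Fin n → V} {a b R : Fin n} :
    Holds e (fPairIn a b R) v ↔ PairIn e (v a) (v b) (v R) := by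
  simp only [fPairIn, PairIn, h_all, h_imp, h_not, h_and, h_or, h_iff, h_ex, h_mem, h_eq,
  Fin.cons_zero, Fin.cons_succ, h_IsOP]

def fInd (z : Fin n) : Fml n :=
  fAnd (fEx (fAnd (.all (fNot (.mem 0 (s1 0)))) (.mem 0 (s1 z)))) (.all (.imp (.mem 0 (s1 z))
  (fEx (fAnd (.all (fIff (.mem 0 (s1 0)) (fOr (.mem 0 (s1 (s1 0))) (.eq 0 (s1 (s1 0)))))) (.mem 0
  (s1 (s1 z)))))))

theorem h_IsInductive {v : Fin n → V} {z : Fin n} :
    Holds e (fInd z) v ↔ IsInductive e (v z) := by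
  simp only [fInd, IsInductive, h_all, h_imp, h_not, h_and, h_or, h_iff, h_ex, h_mem, h_eq,
  Fin.cons_zero, Fin.cons_succ]

def fOmega (o : Fin n) : Fml n :=
  fAnd (fInd o) (.all (.imp (fInd 0) (fIncl (s1 o) 0)))

theorem h_IsOmega {v : Fin n → V} {o : Fin n} :
    Holds e (fOmega o) v ↔ IsOmega e (v o) := by
  simp only [fOmega, IsOmega, h_all, h_imp, h_not, h_and, h_or, h_iff, h_ex, h_mem, h_eq,
  Fin.cons_zero, Fin.cons_succ, h_IsInductive, h_Incl]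

def fCountable (x : Fin n) : Fml n :=
  fEx (fEx (fAnd (fOmega (s1 0)) (fAnd (.all (.imp (.mem 0 (s1 (s1 (s1 x)))) (fEx (fAnd (.mem 0
  (s1 (s1 (s1 0)))) (fPairIn (s1 0) 0 (s1 (s1 0))))))) (fAnd (.all (.all (.all (.imp (fPairIn (s1
  (s1 0)) (s1 0) (s1 (s1 (s1 0)))) (.imp (fPairIn (s1 (s1 0)) 0 (s1 (s1 (s1 0)))) (.eq (s1 0)
  0)))))) (.all (.all (.all (.imp (.mem (s1 (s1 0)) (s1 (s1 (s1 (s1 (s1 x)))))) (.imp (.mem (s1
  0) (s1 (s1 (s1 (s1 (s1 x)))))) (.imp (fPairIn (s1 (s1 0)) 0 (s1 (s1 (s1 0)))) (.imp (fPairIn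
  (s1 0) 0 (s1 (s1 (s1 0)))) (.eq (s1 (s1 0)) (s1 0)))))))))))))

theorem h_IsCountable {v : Fin n → V} {x : Fin n} :
    Holds e (fCountable x) v ↔ IsCountable e (v x) := by
  simp only [fCountable, IsCountable, h_all, h_imp, h_not, h_and, h_or, h_iff, h_ex, h_mem, h_eq,
  Fin.cons_zero, Fin.cons_succ, h_IsOmega, h_PairIn]

def fFinite (x : Fin n) : Fml n :=
  fEx (fEx (fEx (fAnd (fOmega (s1 (s1 0))) (fAnd (.mem (s1 0) (s1 (s1 0))) (fAnd (.all (.imp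
  (.mem 0 (s1 (s1 (s1 (s1 x))))) (fEx (fAnd (.mem 0 (s1 (s1 (s1 0)))) (fPairIn (s1 0) 0 (s1 (s1
  0))))))) (fAnd (.all (.all (.all (.imp (fPairIn (s1 (s1 0)) (s1 0) (s1 (s1 (s1 0)))) (.imp
  (fPairIn (s1 (s1 0)) 0 (s1 (s1 (s1 0)))) (.eq (s1 0) 0)))))) (.all (.all (.all (.imp (.mem (s1
  (s1 0)) (s1 (s1 (s1 (s1 (s1 (s1 x))))))) (.imp (.mem (s1 0) (s1 (s1 (s1 (s1 (s1 (s1 x)))))))
  (.imp (fPairIn (s1 (s1 0)) 0 (s1 (s1 (s1 0)))) (.imp (fPairIn (s1 0) 0 (s1 (s1 (s1 0)))) (.eq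
  (s1 (s1 0)) (s1 0)))))))))))))))

theorem h_IsFinite {v : Fin n → V} {x : Fin n} :
    Holds e (fFinite x) v ↔ IsFinite e (v x) := by
  simp only [fFinite, IsFinite, h_all, h_imp, h_not, h_and, h_or, h_iff, h_ex, h_mem, h_eq,
  Fin.cons_zero, Fin.cons_succ, h_IsOmega, h_PairIn]

def fTransitive (x : Fin n) : Fml n :=
  .all (.imp (.mem 0 (s1 x)) (fIncl 0 (s1 x)))

theorem h_IsTransitive {v : Fin n → V} {x : Fin n} :
    Holds e (fTransitive x) v ↔ IsTransitive e (v x) := by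
  simp only [fTransitive, IsTransitive, h_all, h_imp, h_not, h_and, h_or, h_iff, h_ex, h_mem,
  h_eq, Fin.cons_zero, Fin.cons_succ, h_Incl]

def fOmegaOne (w : Fin n) : Fml n :=
  fAnd (fAnd (fTransitive w) (.all (.imp (.mem 0 (s1 w)) (fTransitive 0)))) (fAnd (fNot
  (fCountable w)) (.all (.imp (.mem 0 (s1 w)) (fCountable 0))))

theorem h_IsOmegaOne {v : Fin n → V} {w : Fin n} :
    Holds e (fOmegaOne w) v ↔ IsOmegaOne e (v w) := by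
  simp only [fOmegaOne, IsOmegaOne, h_all, h_imp, h_not, h_and, h_or, h_iff, h_ex, h_mem, h_eq,
  Fin.cons_zero, Fin.cons_succ, h_IsTransitive, h_IsCountable]

def fFunction (f a b : Fin n) : Fml n :=
  fAnd (.all (.imp (.mem 0 (s1 f)) (fEx (fEx (fAnd (.mem (s1 0) (s1 (s1 (s1 a)))) (fAnd (.mem 0
  (s1 (s1 (s1 b)))) (fIsOP (s1 (s1 0)) (s1 0) 0))))))) (.all (.imp (.mem 0 (s1 a)) (fEx (fAnd
  (fPairIn (s1 0) 0 (s1 (s1 f))) (.all (.imp (fPairIn (s1 (s1 0)) 0 (s1 (s1 (s1 f)))) (.eq 0 (s1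
  0))))))))

theorem h_IsFunction {v : Fin n → V} {f a b : Fin n} :
    Holds e (fFunction f a b) v ↔ IsFunction e (v f) (v a) (v b) := by
  simp only [fFunction, IsFunction, h_all, h_imp, h_not, h_and, h_or, h_iff, h_ex, h_mem, h_eq,
  Fin.cons_zero, Fin.cons_succ, h_IsOP, h_PairIn]

def fLadderVal (h d a m k F : Fin n) : Fml n :=
  fEx (fEx (fEx (fAnd (fIsOP (s1 (s1 0)) (s1 (s1 (s1 a))) (s1 (s1 (s1 m)))) (fAnd (fIsOP (s1 0)
  (s1 (s1 (s1 d))) (s1 (s1 0))) (fAnd (fIsOP 0 (s1 (s1 (s1 k))) (s1 (s1 (s1 F)))) (fPairIn (s1 0)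
  0 (s1 (s1 (s1 h)))))))))

theorem h_LadderVal {v : Fin n → V} {h d a m k F : Fin n} :
    Holds e (fLadderVal h d a m k F) v ↔ LadderVal e (v h) (v d) (v a) (v m) (v k) (v F) := by
  simp only [fLadderVal, LadderVal, h_all, h_imp, h_not, h_and, h_or, h_iff, h_ex, h_mem, h_eq,
  Fin.cons_zero, Fin.cons_succ, h_IsOP, h_PairIn]

def ladderFml : Fml 0 :=
  fEx (fEx (fEx (fEx (fAnd (fOmegaOne (s1 (s1 (s1 0)))) (fAnd (fOmega (s1 (s1 0))) (fAnd (.all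
  (.all (.all (.imp (.mem (s1 (s1 0)) (s1 (s1 (s1 (s1 (s1 (s1 0))))))) (.imp (.mem (s1 0) (s1 (s1
  0))) (.imp (.mem 0 (s1 (s1 (s1 (s1 (s1 0)))))) (fEx (fEx (fAnd (.mem (s1 0) (s1 (s1 (s1 (s1 (s1
  (s1 (s1 0)))))))) (fAnd (fIncl 0 (s1 0)) (fAnd (fLadderVal (s1 (s1 (s1 (s1 (s1 (s1 0)))))) (s1
  (s1 (s1 (s1 0)))) (s1 (s1 (s1 0))) (s1 (s1 0)) (s1 0) 0) (.all (.all (.imp (fLadderVal (s1 (s1
  (s1 (s1 (s1 (s1 (s1 (s1 0)))))))) (s1 (s1 (s1 (s1 (s1 (s1 0)))))) (s1 (s1 (s1 (s1 (s1 0)))))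
  (s1 (s1 (s1 (s1 0)))) (s1 0) 0) (fAnd (.eq (s1 0) (s1 (s1 (s1 0)))) (.eq 0 (s1 (s1
  0)))))))))))))))))) (fAnd (.all (.all (.all (.imp (.mem (s1 (s1 0)) (s1 (s1 (s1 (s1 (s1 (s1
  0))))))) (.imp (.mem (s1 0) (s1 (s1 (s1 (s1 (s1 0)))))) (.imp (.mem 0 (s1 (s1 (s1 (s1 (s1
  0)))))) (fEx (fAnd (fFinite 0) (.all (.all (.all (.imp (.mem (s1 (s1 0)) (s1 (s1 (s1 (s1 (s1
  (s1 0))))))) (.imp (fLadderVal (s1 (s1 (s1 (s1 (s1 (s1 (s1 (s1 0)))))))) (s1 (s1 (s1 (s1 (s1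
  (s1 0)))))) (s1 (s1 0)) (s1 (s1 (s1 (s1 (s1 0))))) (s1 0) 0) (.imp (fIncl (s1 0) (s1 (s1 (s1
  (s1 0))))) (.mem (s1 (s1 0)) (s1 (s1 (s1 0)))))))))))))))))) (fAnd (.all (.all (.all (.imp
  (fIncl (s1 (s1 0)) (s1 (s1 (s1 (s1 (s1 (s1 0))))))) (.imp (fIncl (s1 0) (s1 (s1 (s1 (s1 (s1 (s1
  0))))))) (.imp (fPairIn (s1 (s1 0)) 0 (s1 (s1 (s1 0)))) (.imp (fPairIn (s1 0) 0 (s1 (s1 (s1
  0)))) (.eq (s1 (s1 0)) (s1 0))))))))) (.all (.imp (fIncl 0 (s1 (s1 (s1 (s1 0))))) (fEx (fEx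
  (fEx (fAnd (fPairIn (s1 (s1 (s1 0))) (s1 (s1 0)) (s1 (s1 (s1 (s1 0))))) (fAnd (fIncl (s1 (s1
  0)) (s1 (s1 (s1 (s1 (s1 (s1 0))))))) (fAnd (fFunction (s1 0) (s1 (s1 (s1 (s1 (s1 (s1 (s1
  0))))))) (s1 (s1 (s1 (s1 (s1 (s1 0))))))) (fAnd (fFunction 0 (s1 (s1 (s1 (s1 (s1 (s1 (s1
  0))))))) (s1 (s1 (s1 (s1 (s1 (s1 0))))))) (.all (.imp (.mem 0 (s1 (s1 (s1 (s1 (s1 (s1 (s1 (s1
  0))))))))) (fEx (fAnd (fFinite 0) (.all (.all (.all (.all (.all (.imp (.mem (s1 (s1 (s1 (s1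
  0)))) (s1 (s1 (s1 (s1 (s1 (s1 0))))))) (.imp (fNot (.mem (s1 (s1 (s1 (s1 0)))) (s1 (s1 (s1 (s1
  (s1 0))))))) (.imp (fPairIn (s1 (s1 (s1 (s1 0)))) (s1 (s1 (s1 0))) (s1 (s1 (s1 (s1 (s1 (s1 (s1
  (s1 0))))))))) (.imp (fPairIn (s1 (s1 (s1 (s1 0)))) (s1 (s1 0)) (s1 (s1 (s1 (s1 (s1 (s1 (s1
  0)))))))) (.imp (fLadderVal (s1 (s1 (s1 (s1 (s1 (s1 (s1 (s1 (s1 (s1 (s1 (s1 0)))))))))))) (s1
  (s1 (s1 (s1 (s1 (s1 0)))))) (s1 (s1 (s1 (s1 0)))) (s1 (s1 (s1 0))) (s1 0) 0) (fOr (fIncl (s1 0)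
  (s1 (s1 0))) (.all (fIff (.mem 0 (s1 0)) (fAnd (.mem 0 (s1 (s1 0))) (.mem 0 (s1 (s1 (s1 (s1 (s1
  (s1 (s1 (s1 (s1 (s1 0))))))))))))))))))))))))))))))))))))))))))))))

theorem h_LadderPrinciple : Holds e ladderFml Fin.elim0 ↔ LadderPrinciple e := by
  simp only [ladderFml, LadderPrinciple, h_all, h_imp, h_not, h_and, h_or, h_iff, h_ex, h_mem,
  h_eq, Fin.cons_zero, Fin.cons_succ, h_IsOmegaOne, h_IsOmega, h_Incl, h_LadderVal, h_IsFinite,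
  h_PairIn, h_IsFunction]

def luzinFml : Fml 0 :=
  fEx (fEx (fAnd (fOmegaOne (s1 0)) (fAnd (fOmega 0) (fNot (fEx (fAnd (.all (.imp (fIncl 0 (s1
  (s1 (s1 0)))) (fEx (fAnd (fIncl 0 (s1 (s1 (s1 0)))) (fPairIn (s1 0) 0 (s1 (s1 0))))))) (.all
  (.all (.all (.imp (fIncl (s1 (s1 0)) (s1 (s1 (s1 (s1 (s1 0)))))) (.imp (fIncl (s1 0) (s1 (s1
  (s1 (s1 (s1 0)))))) (.imp (fPairIn (s1 (s1 0)) 0 (s1 (s1 (s1 0)))) (.imp (fPairIn (s1 0) 0 (s1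
  (s1 (s1 0)))) (.eq (s1 (s1 0)) (s1 0)))))))))))))))

theorem h_LuzinAxiom : Holds e luzinFml Fin.elim0 ↔ LuzinAxiom e := by
  simp only [luzinFml, LuzinAxiom, h_all, h_imp, h_not, h_and, h_or, h_iff, h_ex, h_mem, h_eq,
  Fin.cons_zero, Fin.cons_succ, h_IsOmegaOne, h_IsOmega, h_Incl, h_PairIn]


end FRU
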