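import Pool.Agent.H14.FRU.AllT
import Pool.Agent.H14.FRU.AllF
import Pool.Agent.H14.FRU.Sent

/-!
Assembly of project FRU.
-/

set_option linter.unusedVariables false
set_option synthInstance.maxSize 100000

namespace FRU

open SW

/-- the independence theorem -/
theorem independence : ∃ φ ψ : Fml 0,
    (∀ (V : Type 1) (e : V → V → Prop), (Holds e φ Fin.elim0 ↔ LadderPrinciple e) ∧
      (Holds e ψ Fin.elim0 ↔ LuzinAxiom e)) ∧
    (∀ (V : Type) (e : V → V → Prop), (Holds e φ Fin.elim0 ↔ LadderPrinciple e) ∧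
      (Holds e ψ Fin.elim0 ↔ LuzinAxiom e)) ∧
    (Holds (fun x y : ZFSet.{0} => x ∈ y) φ Fin.elim0 → ¬ Question) ∧
    (Holds (fun x y : ZFSet.{0} => x ∈ y) ψ Fin.elim0 → Question) ∧
    (∀ (M : Type) [SetStr M] [ZFC M] [Countable M],
      (∃ (N₁ : Type) (_ : SetStr N₁) (_ : ZFC N₁) (i : M → N₁), IsGenExt i ∧
        ∃ (N : Type) (_ : SetStr N) (_ : ZFC N) (j : N₁ → N), IsGenExt j ∧
          Holds (fun x y : N => E x y) φ Fin.elim0) ∧
      ∃ (N : Type) (_ : SetStr N) (_ : ZFC N) (i : M → N), IsGenExt i ∧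
        Holds (fun x y : N => E x y) ψ Fin.elim0) ∧
    (∀ (M : Type) [SetStr M] [ZFC M],
      (∃ (N : Type) (_ : SetStr N) (_ : ZFC N), Countable N ∧
        Holds (fun x y : N => E x y) φ Fin.elim0) ∧
      ∃ (N : Type) (_ : SetStr N) (_ : ZFC N), Countable N ∧
        Holds (fun x y : N => E x y) ψ Fin.elim0) ∧
    ∃ (M : Type) (_ : SetStr M) (_ : ZFC M), Countable M := by
  refine ⟨ladderFml, luzinFml, fun V e => ⟨h_LadderPrinciple e, h_LuzinAxiom e⟩,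
    fun V e => ⟨h_LadderPrinciple e, h_LuzinAxiom e⟩,
    fun h => ladder_not_question ((h_LadderPrinciple _).1 h),
    fun h => luzin_question ((h_LuzinAxiom _).1 h), fun M _ _ _ => ⟨?_, ?_⟩,
    fun M _ _ => ⟨?_, ?_⟩, ma_zfm⟩
  · obtain ⟨N₁, a, b, i, hi, N, c, d, j, hj, _, hN⟩ := SW.FU.f_ladder M
    exact ⟨N₁, a, b, i, hi, N, c, d, j, hj, (h_LadderPrinciple _).2 hN⟩
  · obtain ⟨N, a, b, i, hi, hN⟩ := SW.FU.f_luzin M
    exact ⟨N, a, b, i, hi, (h_LuzinAxiom _).2 hN⟩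
  · obtain ⟨M', _, _, hc⟩ := ma_lsz M
    obtain ⟨N₁, a, b, i, hi, N, c, d, j, hj, hcN, hN⟩ := SW.FU.f_ladder M'
    exact ⟨N, c, d, hcN, (h_LadderPrinciple _).2 hN⟩
  · obtain ⟨M', _, _, hc⟩ := ma_lsz M
    obtain ⟨N, a, b, i, hi, hN⟩ := SW.FU.f_luzin M'
    exact ⟨N, a, b, cnt M' N i hi, (h_LuzinAxiom _).2 hN⟩

end FRU
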