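import Pool.Agent.H14.FRU.TMain
import Pool.Agent.H4.FRU.BRC
import Pool.Agent.H4.FRU.CHF
import Pool.Agent.H4.FRU.FUK
import Pool.Agent.H4.FRU.NZB
import Pool.Agent.H10.FRU.MPA
import Pool.Agent.H10.FRU.NMZ
import Pool.Agent.H28.FRU.LZQ
import Pool.Agent.H28.FRU.PSI
import Pool.Agent.H28.FRU.URN
import Pool.Agent.H28.FRU.ZFZ
import Pool.Agent.H53.FRU.SRJ
import Pool.Agent.H65.FRU.ZFL
import Pool.Agent.H43.FRU.TRC
import Pool.Agent.H43.FRU.ADF
import Pool.Agent.H43.FRU.NFP

/-!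
Assembly of part T.
-/

namespace FRU

theorem a_trc : TRCStmt := fru_trc
theorem a_adf : ADFStmt := fru_adf a_trc
theorem a_nfp : NFPStmt := fru_nfp a_trc a_adf
theorem a_mpa : MPAStmt := fru_mpa fru_urn fru_brc fru_nzb fru_chf a_adf

/-- Luzin's axiom implies a positive answer -/
theorem luzin_question (h : LuzinAxiom (fun x y : ZFSet.{0} => x ∈ y)) : Question :=
  fru_lzq (fru_zfz h)

/-- the ladder principle implies a negative answer -/
theorem ladder_not_question (h : LadderPrinciple (fun x y : ZFSet.{0} => x ∈ y)) : ¬ Question :=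
  tmain fru_psi (fru_fuk fru_psi) a_adf a_nfp a_mpa fru_srj fru_nmz (fru_zfl h)

end FRU
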