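import Pool.Agent.H93.CT.Stmts
import Pool.Agent.H14.FRU.Core

/-!
Definitions for the forcing part of project FRU: general notions for a notion of forcing, the first
poset (countable matrices), systems of names, the combinatorial structure obtained in the first
extension, the second poset (finite conditions).
-/

set_option linter.unusedVariables false
set_option synthInstance.maxSize 100000

namespace SW.FU

section
variable {M : Type} [SetStr M] [ZF M]

/-! ### components of pairs -/

/-- the first component of a pair -/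
noncomputable def fs (z : M) : M := the (fun a => ∃ b : M, z = opair a b)

/-- the second component of a pair -/
noncomputable def sn (z : M) : M := the (fun b => ∃ a : M, z = opair a b)

theorem fs_df : Fn1 (fun z : M => fs z) := by unfold fs; infer_instance

theorem sn_df : Fn1 (fun z : M => sn z) := by unfold sn; infer_instance

instance {n : ℕ} {t : (Fin n → M) → M} [ht : DfT t] : DfT (fun v => fs (t v)) := fs_df.comp1 ht

instance {n : ℕ} {t : (Fin n → M) → M} [ht : DfT t] : DfT (fun v => sn (t v)) := sn_df.comp1 ht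

@[simp] theorem fs_op (a b : M) : fs (opair a b) = a :=
  the_eq ⟨b, rfl⟩ fun z ⟨b', h⟩ => (opair_inj.1 h).1.symm

@[simp] theorem sn_op (a b : M) : sn (opair a b) = b :=
  the_eq ⟨a, rfl⟩ fun z ⟨a', h⟩ => (opair_inj.1 h).2.symm

/-! ### compatibility and antichains in a notion of forcing -/

/-- `p` and `q` are compatible -/
def CpF (F : FPoset M) (p q : M) : Prop := ∃ r, E r F.P ∧ F.le r p ∧ F.le r q

theorem CpF_df (F : FPoset M) : Cl2 (fun p q : M => CpF F p q) := by unfold CpF; infer_instance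

instance {F : FPoset M} {n : ℕ} {t s : (Fin n → M) → M} [ht : DfT t] [hs : DfT s] :
    Df (fun v => CpF F (t v) (s v)) := (CpF_df F).comp2 ht hs

/-- `a` is an antichain -/
def AnF (F : FPoset M) (a : M) : Prop := Sub a F.P ∧
  ∀ p q, E p a → E q a → p ≠ q → ¬ CpF F p q

theorem AnF_df (F : FPoset M) : Cl (fun a : M => AnF F a) := by unfold AnF; infer_instance

instance {F : FPoset M} {n : ℕ} {t : (Fin n → M) → M} [ht : DfT t] :
    Df (fun v => AnF F (t v)) := (AnF_df F).comp1 ht

/-! ### the first poset: countable matrices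

A condition is a countable set `p` of entries (see `Et`): for `K` in a countable set of columns
and each row `b` in `a` (the height) there is one entry, a natural number. The columns are members
of `I`; `emp` is always a column. -/

/-- `p` is a matrix of height `a` over `I` -/
def Mat (w I a p : M) : Prop := (E a w ∨ a = emp) ∧ Cb p ∧
  (∀ z, E z p → ∃ K b x, (K = emp ∨ E K I) ∧ E b a ∧ E x om ∧ z = opair K (opair b x)) ∧
  (∀ K b x x', Et p K b x → Et p K b x' → x = x') ∧
  (∀ K b, Col p K → E b a → ∃ x, Et p K b x) ∧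
  ∀ b, E b a → ∃ x, Et p emp b x

theorem Mat_df : Df (fun v : Fin 4 → M => Mat (v 0) (v 1) (v 2) (v 3)) := by
  unfold Mat; infer_instance

instance {n : ℕ} {t s u x : (Fin n → M) → M} [ht : DfT t] [hs : DfT s] [hu : DfT u]
    [hx : DfT x] : Df (fun v => Mat (t v) (s v) (u v) (x v)) :=
  Mat_df.comp4 (R := fun a b c d => Mat a b c d) ht hs hu hx

/-- the set of all matrices over `I` -/
noncomputable def P1 (w I : M) : M :=
  sep (pow (prod (ins emp I) (prod w om))) (fun p => ∃ a, Mat w I a p)

theorem P1_df : Fn2 (fun w I : M => P1 w I) := by unfold P1; infer_instance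

instance {n : ℕ} {t s : (Fin n → M) → M} [ht : DfT t] [hs : DfT s] :
    DfT (fun v => P1 (t v) (s v)) := P1_df.comp2 ht hs

/-- `q` extends `p`: the new rows have different entries in different columns of `p` -/
def Le1 (q p : M) : Prop := Sub p q ∧ ∀ K K' b x x', K ≠ K' → Col p K → Col p K' →
  Et q K b x → Et q K' b x' → (∀ y, ¬ Et p K b y) → x ≠ x'

theorem Le1_df : Cl2 (fun q p : M => Le1 q p) := by unfold Le1; infer_instance

instance {n : ℕ} {t s : (Fin n → M) → M} [ht : DfT t] [hs : DfT s] :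
    Df (fun v => Le1 (t v) (s v)) := Le1_df.comp2 ht hs

theorem mem_P1' {w I p : M} : E p (P1 w I) ↔
    Sub p (prod (ins emp I) (prod w om)) ∧ ∃ a, Mat w I a p := by
  unfold P1
  rw [mem_sep' inferInstance, mem_pow]

theorem col_mono {p q K : M} (h : Sub p q) (hc : Col p K) : Col q K := by
  obtain ⟨b, x, hx⟩ := hc
  exact ⟨b, x, h _ hx⟩

theorem not_et_emp (K b x : M) : ¬ Et emp K b x := fun h => not_mem_emp _ h

theorem emp_P1 (w I : M) : E emp (P1 w I) := by
  rw [mem_P1']
  refine ⟨fun z hz => absurd hz (not_mem_emp z), emp, Or.inr rfl,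
    ⟨emp, fun y hy => absurd hy (not_mem_emp y), fun y _ _ hy => absurd hy (not_mem_emp y)⟩,
    fun z hz => absurd hz (not_mem_emp z), fun K b x _ h => absurd h (not_et_emp _ _ _),
    fun K b _ h => absurd h (not_mem_emp _), fun b h => absurd h (not_mem_emp _)⟩

theorem Le1_refl (p : M) : Le1 p p :=
  ⟨Sub.refl p, fun K K' b x x' _ _ _ h _ h' => absurd h (h' x)⟩

theorem Le1_trans {w I p q r : M} (hp : E p (P1 w I)) (hq : E q (P1 w I)) (h1 : Le1 p q)
    (h2 : Le1 q r) : Le1 p r := by
  refine ⟨Sub.trans h2.1 h1.1, fun K K' b x x' hne hK hK' hx hx' hn => ?_⟩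
  obtain ⟨_, a, _, _, m3, m4, m5, m6⟩ := mem_P1'.1 hq
  obtain ⟨_, a', _, _, _, n4, _, _⟩ := mem_P1'.1 hp
  by_cases h : ∃ y, Et q K b y
  · obtain ⟨y, hy⟩ := h
    obtain ⟨K1, b1, x1, _, hb, _, he⟩ := m3 _ hy
    rw [opair_inj, opair_inj] at he
    obtain ⟨rfl, rfl, rfl⟩ := he
    obtain ⟨y', hy'⟩ := m5 K' b (col_mono h2.1 hK') hb
    rw [n4 K b x y hx (h1.1 _ hy), n4 K' b x' y' hx' (h1.1 _ hy')]
    exact h2.2 K K' b y y' hne hK hK' hy hy' hn
  · exact h1.2 K K' b x x' hne (col_mono h2.1 hK) (col_mono h2.1 hK') hx hx'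
      (fun y hy => h ⟨y, hy⟩)

/-- the first notion of forcing -/
noncomputable def PG1 (w I : M) : FPoset M where
  P := P1 w I
  le := fun p q => Le1 p q
  one := emp
  le_df := inferInstance
  one_mem := emp_P1 w I
  refl := fun p _ => Le1_refl p
  trans := fun p q r hp hq _ h1 h2 => Le1_trans hp hq h1 h2
  le_one := fun p _ => ⟨fun z hz => absurd hz (not_mem_emp z),
    fun K K' b x x' _ hK => by
      obtain ⟨b1, x1, h1⟩ := hK
      exact absurd h1 (not_et_emp _ _ _)⟩

/-! ### systems of names -/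

/-- the members of the name `K` are pairs `(x, q)` where `q` is a set of entries over `I` -/
def Sk1 (w I K : M) : Prop := ∀ t, E t K → ∃ x q, t = opair x q ∧
  Sub q (prod (ins emp I) (prod w om))

theorem Sk1_df : Cl3 (fun w I K : M => Sk1 w I K) := by unfold Sk1; infer_instance

instance {n : ℕ} {t s u : (Fin n → M) → M} [ht : DfT t] [hs : DfT s] [hu : DfT u] :
    Df (fun v => Sk1 (t v) (s v) (u v)) := Sk1_df.comp3 ht hs hu

/-- `I` is the largest system of names inside `H`; `Z` bounds the size of antichains -/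
structure Mx1 (w Z H I : M) : Prop where
  bs : Bs w Z
  th : Trans H
  clo : ∀ a, Sub a H → Img Z a → E a H
  sub : Sub I H
  ne : ¬ E emp I
  sk : ∀ K, E K I → Sk1 w I K
  max : ∀ K, E K H → Sk1 w I K → K ≠ emp → E K I

/-- the name of the matrix -/
noncomputable def AA (w I : M) : M :=
  Nmx (PG1 w I) (prod (ins emp I) (prod w om)) (fun p z => E z p)

/-- the name of the set of pairs (name, member of its value) -/
noncomputable def RR (w H I : M) : M :=
  Nmx (PG1 w I) (prod I H) (fun p z => ∃ K x, z = opair K x ∧ E (opair x p) K)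

/-! ### the structure in the first extension -/

/-- `A` gives for each `S` in `L` a function from `w` to `om`, these functions are pairwise
eventually different; `U` is closed under finite subsets and contains `L`, `w`, and the members of
`w`; every nonempty small subset of `U` is coded by `R` and a member of `L` -/
structure K3 (w L U A R : M) : Prop where
  w1 : IsW w
  fnt : ∀ a, Fnt a → Sub a U → E a U
  wU : E w U
  sw : Sub w U
  sL : Sub L U
  tot : ∀ S b, E S L → E b w → ∃ n, E n om ∧ Et A S b n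
  uq : ∀ S b n n', Et A S b n → Et A S b n' → n = n'
  ed : ∀ S S', E S L → E S' L → S ≠ S' → ∃ c, E c w ∧ ∀ b n, ¬ E b c → Et A S b n →
    ¬ Et A S' b n
  nm : ∀ u, Sub u U → Img (prod w om) u → (∃ x, E x u) → ∃ S, E S L ∧
    ∀ x, E x u ↔ E (opair S x) R

/-! ### the second poset: finite conditions

A condition is a tuple `(g, (d, (n, (r, (j, t)))))`: `g` is a finite subset of `L`, `d` is a
finite subset of `w`, `n` is a natural number, `r` is a set of pairs `(S, i)` with `S` in `g` and `i`
below `n`, `j` is a function with domain `g × d` (a set of pairs `((S, α), m)`), `t` is a function which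
assigns to `(δ, (α, a))` (`δ`, `α` in `d`, `α < δ`, `a < n`) a pair `(k, F)` with `k ≤ n`, `F ⊆ k`. -/

/-- the tuple with the given components -/
noncomputable def pk (g d n r j t : M) : M :=
  opair g (opair d (opair n (opair r (opair j t))))

/-- the components of a condition -/
noncomputable def cg (p : M) : M := fs p

/-- the second component -/
noncomputable def cd (p : M) : M := fs (sn p)

/-- the third component -/
noncomputable def cn (p : M) : M := fs (sn (sn p))

/-- the fourth component -/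
noncomputable def cr (p : M) : M := fs (sn (sn (sn p)))

/-- the fifth component -/
noncomputable def cj (p : M) : M := fs (sn (sn (sn (sn p))))

/-- the sixth component -/
noncomputable def ct (p : M) : M := sn (sn (sn (sn (sn p))))

instance {n : ℕ} {t : (Fin n → M) → M} [ht : DfT t] : DfT (fun v => cg (t v)) := by
  unfold cg; infer_instance

instance {n : ℕ} {t : (Fin n → M) → M} [ht : DfT t] : DfT (fun v => cd (t v)) := by
  unfold cd; infer_instance

instance {n : ℕ} {t : (Fin n → M) → M} [ht : DfT t] : DfT (fun v => cn (t v)) := by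
  unfold cn; infer_instance

instance {n : ℕ} {t : (Fin n → M) → M} [ht : DfT t] : DfT (fun v => cr (t v)) := by
  unfold cr; infer_instance

instance {n : ℕ} {t : (Fin n → M) → M} [ht : DfT t] : DfT (fun v => cj (t v)) := by
  unfold cj; infer_instance

instance {n : ℕ} {t : (Fin n → M) → M} [ht : DfT t] : DfT (fun v => ct (t v)) := by
  unfold ct; infer_instance

instance {n : ℕ} {t1 t2 t3 t4 t5 t6 : (Fin n → M) → M} [DfT t1] [DfT t2] [DfT t3] [DfT t4]
    [DfT t5] [DfT t6] : DfT (fun v => pk (t1 v) (t2 v) (t3 v) (t4 v) (t5 v) (t6 v)) := by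
  unfold pk; infer_instance

@[simp] theorem cg_pk (g d n r j t : M) : cg (pk g d n r j t) = g := by simp [cg, pk]
@[simp] theorem cd_pk (g d n r j t : M) : cd (pk g d n r j t) = d := by simp [cd, pk]
@[simp] theorem cn_pk (g d n r j t : M) : cn (pk g d n r j t) = n := by simp [cn, pk]
@[simp] theorem cr_pk (g d n r j t : M) : cr (pk g d n r j t) = r := by simp [cr, pk]
@[simp] theorem cj_pk (g d n r j t : M) : cj (pk g d n r j t) = j := by simp [cj, pk]
@[simp] theorem ct_pk (g d n r j t : M) : ct (pk g d n r j t) = t := by simp [ct, pk]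

/-- the number `i` is in the set given by `r` and `S` -/
def Rv (r S i : M) : Prop := E (opair S i) r

/-- the value of `j` at `(S, α)` is `m` -/
def Jv (j S α m : M) : Prop := E (opair (opair S α) m) j

/-- the value of `t` at `(δ, (α, a))` is `(k, F)` -/
def Tv (t δ α a k F : M) : Prop := E (opair (opair δ (opair α a)) (opair k F)) t

instance {n : ℕ} {t s u : (Fin n → M) → M} [ht : DfT t] [hs : DfT s] [hu : DfT u] :
    Df (fun v => Rv (t v) (s v) (u v)) := by unfold Rv; infer_instance

instance {n : ℕ} {t s u x : (Fin n → M) → M} [ht : DfT t] [hs : DfT s] [hu : DfT u]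
    [hx : DfT x] : Df (fun v => Jv (t v) (s v) (u v) (x v)) := by unfold Jv; infer_instance

instance {n : ℕ} {t s u x y z : (Fin n → M) → M} [ht : DfT t] [hs : DfT s] [hu : DfT u]
    [hx : DfT x] [hy : DfT y] [hz : DfT z] :
    Df (fun v => Tv (t v) (s v) (u v) (x v) (y v) (z v)) := by unfold Tv; infer_instance

/-- `p` is a condition -/
def Cn2 (w L A p : M) : Prop := p = pk (cg p) (cd p) (cn p) (cr p) (cj p) (ct p) ∧
  (Fnt (cg p) ∧ Sub (cg p) L) ∧ (Fnt (cd p) ∧ Sub (cd p) w) ∧ E (cn p) om ∧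
  (Fnt (cr p) ∧ ∀ z, E z (cr p) → ∃ S i, E S (cg p) ∧ E i (cn p) ∧ z = opair S i) ∧
  (Fnt (cj p) ∧ (∀ z, E z (cj p) → ∃ S α m, E S (cg p) ∧ E α (cd p) ∧ E m om ∧
      z = opair (opair S α) m) ∧
    (∀ S α, E S (cg p) → E α (cd p) → ∃ m, Jv (cj p) S α m) ∧
    ∀ S α m m', Jv (cj p) S α m → Jv (cj p) S α m' → m = m') ∧
  (Fnt (ct p) ∧ (∀ z, E z (ct p) → ∃ δ α a k F, E δ (cd p) ∧ E α (cd p) ∧ E α δ ∧ E a (cn p) ∧
      E k (suc (cn p)) ∧ Sub F k ∧ z = opair (opair δ (opair α a)) (opair k F)) ∧
    (∀ δ α a, E δ (cd p) → E α (cd p) → E α δ → E a (cn p) → ∃ k F, Tv (ct p) δ α a k F) ∧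
    ∀ δ α a k F k' F', Tv (ct p) δ α a k F → Tv (ct p) δ α a k' F' → k = k' ∧ F = F') ∧
  ∀ S α a, E S (cg p) → E α (cd p) → Et A S α a → E a (cn p)

theorem Cn2_df : Df (fun v : Fin 4 → M => Cn2 (v 0) (v 1) (v 2) (v 3)) := by
  unfold Cn2; infer_instance

instance {n : ℕ} {t s u x : (Fin n → M) → M} [ht : DfT t] [hs : DfT s] [hu : DfT u]
    [hx : DfT x] : Df (fun v => Cn2 (t v) (s v) (u v) (x v)) :=
  Cn2_df.comp4 (R := fun a b c d => Cn2 a b c d) ht hs hu hx

/-- `q` is stronger than `p` -/
def Le2 (A q p : M) : Prop := Sub (cg p) (cg q) ∧ Sub (cd p) (cd q) ∧ Sub (cn p) (cn q) ∧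
  Sub (cj p) (cj q) ∧ Sub (ct p) (ct q) ∧
  (∀ S i, E S (cg p) → E i (cn p) → (Rv (cr q) S i ↔ Rv (cr p) S i)) ∧
  (∀ δ α a k F, E δ (cd p) → Tv (ct q) δ α a k F → ¬ Tv (ct p) δ α a k F → Sub (cn p) k) ∧
  ∀ δ α S a k F m, E δ (cd p) → E α (cd q) → ¬ E α (cd p) → E S (cg p) → Et A S α a →
    Tv (ct q) δ α a k F → Jv (cj q) S α m → Sub k m ∨ ∀ i, E i k → (E i F ↔ Rv (cr q) S i)

theorem Le2_df : Cl3 (fun A q p : M => Le2 A q p) := by unfold Le2; infer_instance

instance {n : ℕ} {t s u : (Fin n → M) → M} [ht : DfT t] [hs : DfT s] [hu : DfT u] :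
    Df (fun v => Le2 (t v) (s v) (u v)) := Le2_df.comp3 ht hs hu

/-- the empty condition -/
noncomputable def one2 : M := pk emp emp emp emp emp emp

instance {n : ℕ} : DfT (fun v : Fin n → M => (one2 : M)) := by unfold one2; infer_instance

/-- the set of conditions -/
noncomputable def P2 (w L U A : M) : M := sep (ins one2 U) (fun p => Cn2 w L A p)

theorem P2_df : DfT (fun v : Fin 4 → M => P2 (v 0) (v 1) (v 2) (v 3)) := by
  unfold P2; infer_instance

instance {n : ℕ} {t s u x : (Fin n → M) → M} [ht : DfT t] [hs : DfT s] [hu : DfT u]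
    [hx : DfT x] : DfT (fun v => P2 (t v) (s v) (u v) (x v)) := by unfold P2; infer_instance

theorem mem_P2 {w L U A p : M} : E p (P2 w L U A) ↔ (E p U ∨ p = one2) ∧ Cn2 w L A p := by
  unfold P2
  rw [mem_sep' inferInstance, mem_ins]

theorem one2_Cn2 (w L A : M) : Cn2 w L A one2 := by
  have h : ∀ z : M, ¬ E z emp := not_mem_emp
  unfold one2
  refine ⟨by simp, ?_, ?_, ?_, ?_, ?_, ?_, ?_⟩
  · rw [cg_pk]; exact ⟨finF.emp, fun z hz => absurd hz (h z)⟩
  · rw [cd_pk]; exact ⟨finF.emp, fun z hz => absurd hz (h z)⟩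
  · rw [cn_pk]; exact emp_mem_om
  · rw [cr_pk]; exact ⟨finF.emp, fun z hz => absurd hz (h z)⟩
  · rw [cj_pk, cg_pk]
    exact ⟨finF.emp, fun z hz => absurd hz (h z), fun S α hS => absurd hS (h _),
      fun S α m m' hm => absurd hm (h _)⟩
  · rw [ct_pk, cd_pk]
    exact ⟨finF.emp, fun z hz => absurd hz (h z), fun δ α a hS => absurd hS (h _),
      fun δ α a k F k' F' hm => absurd hm (h _)⟩
  · rw [cg_pk]
    exact fun S α a hS => absurd hS (h _)

theorem Le2_refl (A p : M) : Le2 A p p :=
  ⟨Sub.refl _, Sub.refl _, Sub.refl _, Sub.refl _, Sub.refl _, fun S i _ _ => Iff.rfl,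
    fun δ α a k F _ h h' => absurd h h', fun δ α S a k F m _ h h' => absurd h h'⟩

theorem Le2_trans {w L A p q r : M} (hp : Cn2 w L A p) (hq : Cn2 w L A q) (h1 : Le2 A p q)
    (h2 : Le2 A q r) : Le2 A p r := by
  obtain ⟨a1, a2, a3, a4, a5, a6, a7, a8⟩ := h1
  obtain ⟨b1, b2, b3, b4, b5, b6, b7, b8⟩ := h2
  obtain ⟨_, _, _, qn, _, ⟨_, q1, q2, q3⟩, ⟨_, q4, q5, q6⟩, q7⟩ := hq
  obtain ⟨_, _, _, _, _, ⟨_, p1, p2, p3⟩, ⟨_, p4, p5, p6⟩, p7⟩ := hp
  refine ⟨b1.trans a1, b2.trans a2, b3.trans a3, b4.trans a4, b5.trans a5, ?_, ?_, ?_⟩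
  · intro S i hS hi
    rw [a6 S i (b1 _ hS) (b3 _ hi), b6 S i hS hi]
  · intro δ α a k F hδ ht hn
    by_cases h : Tv (ct q) δ α a k F
    · exact b7 δ α a k F hδ h hn
    · exact b3.trans (a7 δ α a k F (b2 _ hδ) ht h)
  · intro δ α S a k F m hδ hα hα' hS hA ht hj
    by_cases h : E α (cd q)
    · -- the entries are in `q`
      have hαδ : E α δ := by
        obtain ⟨δ', α', a', k', F', _, _, h', _, _, _, he⟩ := p4 _ ht
        rw [opair_inj, opair_inj, opair_inj] at he
        obtain ⟨⟨rfl, rfl, _⟩, _⟩ := he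
        exact h'
      obtain ⟨k', F', ht'⟩ := q5 δ α a (b2 _ hδ) h hαδ (q7 S α a (b1 _ hS) h hA)
      obtain ⟨rfl, rfl⟩ := p6 δ α a k F k' F' ht (a5 _ ht')
      obtain ⟨m', hj'⟩ := q2 S α (b1 _ hS) h
      have := p3 S α m m' hj (a4 _ hj')
      subst this
      rcases b8 δ α S a k F m hδ h hα' hS hA ht' hj' with h3 | h3
      · exact Or.inl h3
      · refine Or.inr fun i hi => ?_
        rw [h3 i hi]
        obtain ⟨δ', α', a', k', F', _, _, _, _, hk, _, he⟩ := q4 _ ht'
        have hkk := (opair_inj.1 (opair_inj.1 he).2).1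
        rw [← hkk] at hk
        have hin : E i (cn q) := by
          rw [mem_suc] at hk
          rcases hk with hk | hk
          · exact om_trans_elt qn k hk i hi
          · rw [← hk]; exact hi
        exact (a6 S i (b1 _ hS) hin).symm
    · exact a8 δ α S a k F m (b2 _ hδ) hα h (b1 _ hS) hA ht hj

/-- the second notion of forcing -/
noncomputable def PG2 (w L U A : M) : FPoset M where
  P := P2 w L U A
  le := fun p q => Le2 A p q
  one := one2
  le_df := inferInstance
  one_mem := mem_P2.2 ⟨Or.inr rfl, one2_Cn2 w L A⟩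
  refl := fun p _ => Le2_refl A p
  trans := fun p q r hp hq _ h1 h2 => Le2_trans (mem_P2.1 hp).2 (mem_P2.1 hq).2 h1 h2
  le_one := fun p _ => by
    have h : ∀ z : M, ¬ E z emp := not_mem_emp
    have h1 : cg (one2 : M) = emp := by unfold one2; rw [cg_pk]
    have h2 : cd (one2 : M) = emp := by unfold one2; rw [cd_pk]
    have h3 : cn (one2 : M) = emp := by unfold one2; rw [cn_pk]
    have h5 : cj (one2 : M) = emp := by unfold one2; rw [cj_pk]
    have h6 : ct (one2 : M) = emp := by unfold one2; rw [ct_pk]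
    refine ⟨?_, ?_, ?_, ?_, ?_, ?_, ?_, ?_⟩
    · rw [h1]; exact fun z hz => absurd hz (h z)
    · rw [h2]; exact fun z hz => absurd hz (h z)
    · rw [h3]; exact fun z hz => absurd hz (h z)
    · rw [h5]; exact fun z hz => absurd hz (h z)
    · rw [h6]; exact fun z hz => absurd hz (h z)
    · rw [h1]; exact fun S i hS => absurd hS (h _)
    · rw [h2]; exact fun δ α a k F hS => absurd hS (h _)
    · rw [h2]; exact fun δ α S a k F m hS => absurd hS (h _)

/-! ### the generic objects of the second extension -/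

/-- the name of the ladder -/
noncomputable def HH (w L U A : M) : M :=
  Nmx (PG2 w L U A) (prod (prod w (prod w om)) (prod om (pow om))) (fun p z => E z (ct p))

/-- the name of the reals -/
noncomputable def RN (w L U A : M) : M :=
  Nmx (PG2 w L U A) (prod L om) (fun p z => E z (cr p))

/-- the name of the functions `j` -/
noncomputable def JN (w L U A : M) : M :=
  Nmx (PG2 w L U A) (prod (prod L w) om) (fun p z => E z (cj p))

/-- the subset of `w` coded by `S`, for a filter `Γ` and the coding relation `R` -/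
noncomputable def XX (w Γ R S : M) : M :=
  sep w (fun b => ∃ q, E q Γ ∧ E (opair S (opair b q)) R)

theorem XX_df : DfT (fun v : Fin 4 → M => XX (v 0) (v 1) (v 2) (v 3)) := by
  unfold XX; infer_instance

instance {n : ℕ} {t s u x : (Fin n → M) → M} [ht : DfT t] [hs : DfT s] [hu : DfT u]
    [hx : DfT x] : DfT (fun v => XX (t v) (s v) (u v) (x v)) := by unfold XX; infer_instance

/-- the structure in the second extension: `h` is the ladder, `r`, `A`, `j` give reals and
functions for every `S` in `L`, `Γ` and `R` decode the members of `L` as subsets of `w` -/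
structure K4 (w L A R h r j Γ : M) : Prop where
  w1 : IsW w
  hv : ∀ d a n, E d w → E a d → E n om → ∃ k F, E k om ∧ Sub F k ∧ Tv h d a n k F ∧
    ∀ k' F', Tv h d a n k' F' → k' = k ∧ F' = F
  hl : ∀ d n l, E d w → E n om → E l om →
    Fnt (sep d (fun a => ∃ k F, Tv h d a n k F ∧ Sub k l))
  At : ∀ S b, E S L → E b w → ∃ n, E n om ∧ Et A S b n ∧ ∀ n', Et A S b n' → n' = n
  Jt : ∀ S b, E S L → E b w → ∃ m, E m om ∧ Jv j S b m ∧ ∀ m', Jv j S b m' → m' = m
  rd : ∀ S S', E S L → E S' L → S ≠ S' → ∃ i, E i om ∧ ¬ (Rv r S i ↔ Rv r S' i)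
  cap : ∀ S d, E S L → E d w → Fnt (sep d (fun a => ¬ ∀ n m k F, Et A S a n → Jv j S a m →
    Tv h d a n k F → Sub k m ∨ ∀ i, E i k → (E i F ↔ Rv r S i)))
  cod : ∀ X, Sub X w → ∃ S, E S L ∧ X = XX w Γ R S

end

end SW.FU
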