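import Pool.Agent.H14.FRU.Stmts

/-!
Assembly of the forcing part of project FRU.
-/

set_option linter.unusedVariables false
set_option synthInstance.maxSize 100000

namespace SW.FU

theorem st1 (hw0 : W0Stmt) (hacx : ACXStmt) (hwpx : WPXStmt) (hmx : MX1Stmt) (hsc : SC1Stmt)
    (hag : AG1Stmt) (hnm : NM1Stmt) (huc : UC1Stmt) : ST1Stmt := by
  intro M _ _ _
  obtain ⟨w, hw⟩ := hw0 M
  obtain ⟨Z, H, I, hm⟩ := hmx M w hw
  obtain ⟨G, hG, _⟩ := (semF (PG1 w I)).ex (PG1 w I).one (PG1 w I).one_mem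
  have hz : ZFC (Ext (PG1 w I) G) := hacx M (PG1 w I) G hG
  have tf := traF hG
  have hw' := (hwpx M (PG1 w I) G w (hsc M w I hw hm.ne) hG hw).1
  obtain ⟨g1, g2, g3⟩ := hag M w I G hw hm.ne hG
  obtain ⟨c1, c2, c3⟩ := huc M w Z H I G hm hG
  exact ⟨Ext (PG1 w I) G, inferInstance, hz, emb (PG1 w I) G, valF hG,
    emb (PG1 w I) G w, emb (PG1 w I) G I, emb (PG1 w I) G H, mk (PG1 w I) G (AA w I),
    mk (PG1 w I) G (RR w H I), hw', c1, c2, c3, (tf.sub _ _).2 hm.sub, g1, g2, g3,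
    hnm M w Z H I G hm hG⟩

theorem cc2 (ham : AM2Stmt) (hun : UN2Stmt) : CC2Stmt := by
  intro M _ _ w L U A R a hk ha
  by_contra hcb
  obtain ⟨p, q, hp, hq, hne, h1, h2, h3, h4, h5, h6⟩ := hun M w L U A R a hk ha.1 hcb
  exact ha.2 p q hp hq hne (ham M w L U A R p q hk (ha.1 p hp) (ha.1 q hq) h1 h2 h3 h4 h5 h6)

theorem st2 (hacx : ACXStmt) (hwx : WXGStmt) (hcc : CC2Stmt) (hgh : GH2Stmt) (hgj : GJ2Stmt)
    (hcp : CP2Stmt) (hnm : NM2Stmt) (hae : AE2Stmt) : ST2Stmt := by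
  intro M _ _ _ w L U A R hk
  obtain ⟨G, hG, _⟩ := (semF (PG2 w L U A)).ex (PG2 w L U A).one (PG2 w L U A).one_mem
  have hz : ZFC (Ext (PG2 w L U A) G) := hacx M (PG2 w L U A) G hG
  have hw' := hwx M (PG2 w L U A) G w (fun a ha => hcc M w L U A R a hk ha) hG hk.w1
  obtain ⟨g1, g2⟩ := hgh M w L U A R G hk hG
  obtain ⟨j1, j2⟩ := hgj M w L U A R G hk hG
  exact ⟨Ext (PG2 w L U A) G, inferInstance, hz, emb (PG2 w L U A) G, valF hG,
    emb (PG2 w L U A) G w, emb (PG2 w L U A) G L, emb (PG2 w L U A) G A,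
    emb (PG2 w L U A) G R, mk (PG2 w L U A) G (HH w L U A), mk (PG2 w L U A) G (RN w L U A),
    mk (PG2 w L U A) G (JN w L U A), mk (PG2 w L U A) G (Gnm (PG2 w L U A)),
    hw', g1, g2, hae M w L U A R G hk hG, j1, j2, hcp M w L U A R G hk hG,
    hnm M w L U A R G hk hG⟩

/-- the consistency of the ladder principle -/
theorem ladder (h1 : ST1Stmt) (h2 : ST2Stmt) (h3 : PLNStmt) (M : Type) [SetStr M] [ZFC M]
    [Countable M] :
    ∃ (N₁ : Type) (_ : SetStr N₁) (_ : ZFC N₁) (i : M → N₁), IsGenExt i ∧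
      ∃ (N : Type) (_ : SetStr N) (_ : ZFC N) (j : N₁ → N), IsGenExt j ∧ Countable N ∧
        _root_.FRU.LadderPrinciple (fun x y : N => E x y) := by
  obtain ⟨N₁, _, _, i, hi, w, L, U, A, R, hk⟩ := h1 M
  have hc : Countable N₁ := cnt M N₁ i hi
  obtain ⟨N, _, _, j, hj, w', L', A', R', h, r, j', Γ, hk'⟩ := h2 N₁ w L U A R hk
  exact ⟨N₁, inferInstance, inferInstance, i, hi, N, inferInstance, inferInstance, j, hj,
    cnt N₁ N j hj, h3 N w' L' A' R' h r j' Γ hk'⟩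

end SW.FU
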