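import Pool.Agent.H14.FRU.Defs

/-!
Statements of the modules of the forcing part of project FRU.
-/

set_option linter.unusedVariables false
set_option synthInstance.maxSize 100000

namespace SW.FU

/-! ## Part G: any notion of forcing -/

/-- MXG: maximal antichains inside a set of conditions -/
def MXGStmt : Prop := ∀ (M : Type) [SetStr M] [ZFC M] (F : FPoset M) (D : M), Sub D F.P →
  ∃ a, Sub a D ∧ AnF F a ∧ ∀ d, E d D → ∃ q, E q a ∧ CpF F q d

/-- NNG: nice names for images of a set `V` of the ground model. `Z` bounds the size of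
antichains. The name `e` is a set of pairs `(x, q)`, covered by `V × Z` -/
def NNGStmt : Prop := ∀ (M : Type) [SetStr M] [ZFC M] [Countable M] (F : FPoset M) (G : M → Prop)
  (V Z H : M), Gen F G → (∀ a, AnF F a → Img Z a) → ∀ [ZFC (Ext F G)] (u : Ext F G),
  Sub u (emb F G H) → Img (emb F G V) u → (∃ x, E x u) →
  ∃ e : M, (∀ z, E z e → ∃ x q, E x H ∧ E q F.P ∧ z = opair x q) ∧ Img (prod V Z) e ∧
    ∀ x, E x H → (E (emb F G x) u ↔ ∃ q, G q ∧ E (opair x q) e)

/-- CVG: countable sets of a ccc extension are covered by countable sets of `M` -/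
def CVGStmt : Prop := ∀ (M : Type) [SetStr M] [ZFC M] [Countable M] (F : FPoset M)
  (G : M → Prop), (∀ a, AnF F a → Cb a) → Gen F G → ∀ [ZF (Ext F G)],
  ∀ (X : M) (a : Ext F G), Cb a → Sub a (emb F G X) → ∃ c : M, Cb c ∧ Sub a (emb F G c)

/-- WXG: the first uncountable ordinal is preserved by ccc forcing -/
def WXGStmt : Prop := ∀ (M : Type) [SetStr M] [ZFC M] [Countable M] (F : FPoset M)
  (G : M → Prop) (w : M), (∀ a, AnF F a → Cb a) → Gen F G → IsW w → ∀ [ZF (Ext F G)],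
  IsW (emb F G w)

/-! ## Part A: the first step -/

/-- MX1: the largest system of names exists -/
def MX1Stmt : Prop := ∀ (M : Type) [SetStr M] [ZFC M] (w : M), IsW w → ∃ Z H I, Mx1 w Z H I

/-- SC1: the first poset is closed -/
def SC1Stmt : Prop := ∀ (M : Type) [SetStr M] [ZFC M] (w I : M), IsW w → ¬ E emp I →
  SCl (PG1 w I)

/-- EX1: every matrix has an extension with the column `K` and the row `c` -/
def EX1Stmt : Prop := ∀ (M : Type) [SetStr M] [ZFC M] (w I p K c : M), IsW w → ¬ E emp I →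
  E p (P1 w I) → E K I → E c w → ∃ q, E q (P1 w I) ∧ Le1 q p ∧ ∃ x, Et q K c x

/-- CC1: antichains of the first poset are images of `Z` -/
def CC1Stmt : Prop := ∀ (M : Type) [SetStr M] [ZFC M] (w Z I A : M), Bs w Z → ¬ E emp I →
  AnF (PG1 w I) A → Img Z A

/-- AG1: the generic matrix gives pairwise eventually different functions -/
def AG1Stmt : Prop := ∀ (M : Type) [SetStr M] [ZFC M] [Countable M] (w I : M) (G : M → Prop),
  IsW w → ¬ E emp I → Gen (PG1 w I) G → ∀ [ZFC (Ext (PG1 w I) G)],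
  (∀ S b, E S (emb (PG1 w I) G I) → E b (emb (PG1 w I) G w) →
    ∃ n, E n om ∧ Et (mk (PG1 w I) G (AA w I)) S b n) ∧
  (∀ S b n n', Et (mk (PG1 w I) G (AA w I)) S b n → Et (mk (PG1 w I) G (AA w I)) S b n' →
    n = n') ∧
  ∀ S S', E S (emb (PG1 w I) G I) → E S' (emb (PG1 w I) G I) → S ≠ S' →
    ∃ c, E c (emb (PG1 w I) G w) ∧ ∀ b n, ¬ E b c → Et (mk (PG1 w I) G (AA w I)) S b n →
      ¬ Et (mk (PG1 w I) G (AA w I)) S' b n

/-- NM1: every nonempty small subset of `H` has a name in `I` -/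
def NM1Stmt : Prop := ∀ (M : Type) [SetStr M] [ZFC M] [Countable M] (w Z H I : M)
  (G : M → Prop), Mx1 w Z H I → Gen (PG1 w I) G → ∀ [ZFC (Ext (PG1 w I) G)],
  ∀ u, Sub u (emb (PG1 w I) G H) → Img (prod (emb (PG1 w I) G w) om) u → (∃ x, E x u) →
  ∃ S, E S (emb (PG1 w I) G I) ∧ ∀ x, E x u ↔ E (opair S x) (mk (PG1 w I) G (RR w H I))

/-- UC1: closure properties of `H` in the extension -/
def UC1Stmt : Prop := ∀ (M : Type) [SetStr M] [ZFC M] [Countable M] (w Z H I : M)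
  (G : M → Prop), Mx1 w Z H I → Gen (PG1 w I) G → ∀ [ZFC (Ext (PG1 w I) G)],
  (∀ a, Fnt a → Sub a (emb (PG1 w I) G H) → E a (emb (PG1 w I) G H)) ∧
  E (emb (PG1 w I) G w) (emb (PG1 w I) G H) ∧ Sub (emb (PG1 w I) G w) (emb (PG1 w I) G H)

/-- ST1: every countable model of ZFC has a generic extension with the structure `K3` -/
def ST1Stmt : Prop := ∀ (M : Type) [SetStr M] [ZFC M] [Countable M],
  ∃ (N : Type) (_ : SetStr N) (_ : ZFC N) (i : M → N), IsGenExt i ∧ ∃ w L U A R : N, K3 w L U A R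

/-! ## Part B: the second step -/

/-- UF2: closure properties of `U`, `om ⊆ U` -/
def UF2Stmt : Prop := ∀ (M : Type) [SetStr M] [ZFC M] (w L U A R : M), K3 w L U A R →
  (∀ a b, E a U → E b U → E (opair a b) U) ∧ Sub om U ∧
  (∀ p, Cn2 w L A p → E p U) ∧ Sub (P2 w L U A) U

/-- EX2: a condition has an extension with given members -/
def EX2Stmt : Prop := ∀ (M : Type) [SetStr M] [ZFC M] (w L U A R p S α m : M), K3 w L U A R →
  E p (P2 w L U A) → E S L → E α w → E m om →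
  ∃ q, E q (P2 w L U A) ∧ Le2 A q p ∧ E S (cg q) ∧ E α (cd q) ∧ E m (cn q)

/-- DF2: different members of `L` get different reals -/
def DF2Stmt : Prop := ∀ (M : Type) [SetStr M] [ZFC M] (w L U A R p S S' : M), K3 w L U A R →
  E p (P2 w L U A) → E S (cg p) → E S' (cg p) → S ≠ S' →
  ∃ q i, E q (P2 w L U A) ∧ Le2 A q p ∧ E i (cn q) ∧ ¬ (Rv (cr q) S i ↔ Rv (cr q) S' i)

/-- AM2: amalgamation -/
def AM2Stmt : Prop := ∀ (M : Type) [SetStr M] [ZFC M] (w L U A R p q : M), K3 w L U A R →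
  E p (P2 w L U A) → E q (P2 w L U A) → cn p = cn q →
  (∀ S i, E S (cg p) → E S (cg q) → (Rv (cr p) S i ↔ Rv (cr q) S i)) →
  (∀ S α m, E S (cg p) → E S (cg q) → E α (cd p) → E α (cd q) →
    (Jv (cj p) S α m ↔ Jv (cj q) S α m)) →
  (∀ δ α a k F, E δ (cd p) → E δ (cd q) → E α (cd p) → E α (cd q) →
    (Tv (ct p) δ α a k F ↔ Tv (ct q) δ α a k F)) →
  (∀ δ α, E δ (cd p) → E δ (cd q) → E α δ → (E α (cd p) ↔ E α (cd q))) →
  (∀ α S S' a, (¬ (E α (cd p) ↔ E α (cd q))) → E S (cg p) → E S (cg q) → E S' (cg p) →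
    E S' (cg q) → S ≠ S' → Et A S α a → ¬ Et A S' α a) →
  CpF (PG2 w L U A) p q

/-- DL2: delta systems of conditions -/
def DL2Stmt : Prop := ∀ (M : Type) [SetStr M] [ZFC M] (w L U A R V : M), K3 w L U A R →
  Sub V (P2 w L U A) → ¬ Cb V → ∃ V' g0 d0, Sub V' V ∧ ¬ Cb V' ∧ Fnt g0 ∧ Sub g0 L ∧ Fnt d0 ∧
  Sub d0 w ∧ (∀ p, E p V' → Sub g0 (cg p) ∧ Sub d0 (cd p)) ∧
  ∀ p q, E p V' → E q V' → p ≠ q → (∀ x, E x (cg p) → E x (cg q) → E x g0) ∧
    ∀ x, E x (cd p) → E x (cd q) → E x d0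

/-- TY2: an uncountable set of conditions contains an uncountable set of conditions with the same
number `n` and the same traces on given finite sets -/
def TY2Stmt : Prop := ∀ (M : Type) [SetStr M] [ZFC M] (w L U A R V g0 d0 : M), K3 w L U A R →
  Sub V (P2 w L U A) → ¬ Cb V → Fnt g0 → Fnt d0 → ∃ V', Sub V' V ∧ ¬ Cb V' ∧
  ∀ p q, E p V' → E q V' → cn p = cn q ∧
    (∀ S i, E S g0 → (Rv (cr p) S i ↔ Rv (cr q) S i)) ∧
    (∀ S α m, E S g0 → E α d0 → (Jv (cj p) S α m ↔ Jv (cj q) S α m)) ∧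
    ∀ δ α a k F, E δ d0 → E α d0 → (Tv (ct p) δ α a k F ↔ Tv (ct q) δ α a k F)

/-- UN2: an uncountable set of conditions contains two different conditions which satisfy the
hypotheses of AM2 -/
def UN2Stmt : Prop := ∀ (M : Type) [SetStr M] [ZFC M] (w L U A R V : M), K3 w L U A R →
  Sub V (P2 w L U A) → ¬ Cb V → ∃ p q, E p V ∧ E q V ∧ p ≠ q ∧ cn p = cn q ∧
  (∀ S i, E S (cg p) → E S (cg q) → (Rv (cr p) S i ↔ Rv (cr q) S i)) ∧
  (∀ S α m, E S (cg p) → E S (cg q) → E α (cd p) → E α (cd q) →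
    (Jv (cj p) S α m ↔ Jv (cj q) S α m)) ∧
  (∀ δ α a k F, E δ (cd p) → E δ (cd q) → E α (cd p) → E α (cd q) →
    (Tv (ct p) δ α a k F ↔ Tv (ct q) δ α a k F)) ∧
  (∀ δ α, E δ (cd p) → E δ (cd q) → E α δ → (E α (cd p) ↔ E α (cd q))) ∧
  ∀ α S S' a, (¬ (E α (cd p) ↔ E α (cd q))) → E S (cg p) → E S (cg q) → E S' (cg p) →
    E S' (cg q) → S ≠ S' → Et A S α a → ¬ Et A S' α a

/-- CC2: the second poset is ccc -/
def CC2Stmt : Prop := ∀ (M : Type) [SetStr M] [ZFC M] (w L U A R a : M), K3 w L U A R →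
  AnF (PG2 w L U A) a → Cb a

/-- GH2: the generic ladder -/
def GH2Stmt : Prop := ∀ (M : Type) [SetStr M] [ZFC M] [Countable M] (w L U A R : M)
  (G : M → Prop), K3 w L U A R → Gen (PG2 w L U A) G → ∀ [ZFC (Ext (PG2 w L U A) G)],
  (∀ d a n, E d (emb (PG2 w L U A) G w) → E a d → E n om → ∃ k F, E k om ∧ Sub F k ∧
    Tv (mk (PG2 w L U A) G (HH w L U A)) d a n k F ∧
    ∀ k' F', Tv (mk (PG2 w L U A) G (HH w L U A)) d a n k' F' → k' = k ∧ F' = F) ∧
  ∀ d n l, E d (emb (PG2 w L U A) G w) → E n om → E l om →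
    Fnt (sep d (fun a => ∃ k F, Tv (mk (PG2 w L U A) G (HH w L U A)) d a n k F ∧ Sub k l))

/-- GJ2: the functions `j` and the reals -/
def GJ2Stmt : Prop := ∀ (M : Type) [SetStr M] [ZFC M] [Countable M] (w L U A R : M)
  (G : M → Prop), K3 w L U A R → Gen (PG2 w L U A) G → ∀ [ZFC (Ext (PG2 w L U A) G)],
  (∀ S b, E S (emb (PG2 w L U A) G L) → E b (emb (PG2 w L U A) G w) → ∃ m, E m om ∧
    Jv (mk (PG2 w L U A) G (JN w L U A)) S b m ∧
    ∀ m', Jv (mk (PG2 w L U A) G (JN w L U A)) S b m' → m' = m) ∧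
  ∀ S S', E S (emb (PG2 w L U A) G L) → E S' (emb (PG2 w L U A) G L) → S ≠ S' →
    ∃ i, E i om ∧ ¬ (Rv (mk (PG2 w L U A) G (RN w L U A)) S i ↔
      Rv (mk (PG2 w L U A) G (RN w L U A)) S' i)

/-- CP2: the ladder captures the reals -/
def CP2Stmt : Prop := ∀ (M : Type) [SetStr M] [ZFC M] [Countable M] (w L U A R : M)
  (G : M → Prop), K3 w L U A R → Gen (PG2 w L U A) G → ∀ [ZFC (Ext (PG2 w L U A) G)],
  ∀ S d, E S (emb (PG2 w L U A) G L) → E d (emb (PG2 w L U A) G w) →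
  Fnt (sep d (fun a => ¬ ∀ n m k F, Et (emb (PG2 w L U A) G A) S a n →
    Jv (mk (PG2 w L U A) G (JN w L U A)) S a m →
    Tv (mk (PG2 w L U A) G (HH w L U A)) d a n k F → Sub k m ∨
      ∀ i, E i k → (E i F ↔ Rv (mk (PG2 w L U A) G (RN w L U A)) S i)))

/-- NM2: every subset of `w` in the second extension is coded by a member of `L` -/
def NM2Stmt : Prop := ∀ (M : Type) [SetStr M] [ZFC M] [Countable M] (w L U A R : M)
  (G : M → Prop), K3 w L U A R → Gen (PG2 w L U A) G → ∀ [ZFC (Ext (PG2 w L U A) G)],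
  ∀ X, Sub X (emb (PG2 w L U A) G w) → ∃ S, E S (emb (PG2 w L U A) G L) ∧
    X = XX (emb (PG2 w L U A) G w) (mk (PG2 w L U A) G (Gnm (PG2 w L U A)))
      (emb (PG2 w L U A) G R) S

/-- AE2: the functions `A` in the second extension -/
def AE2Stmt : Prop := ∀ (M : Type) [SetStr M] [ZFC M] [Countable M] (w L U A R : M)
  (G : M → Prop), K3 w L U A R → Gen (PG2 w L U A) G → ∀ [ZFC (Ext (PG2 w L U A) G)],
  ∀ S b, E S (emb (PG2 w L U A) G L) → E b (emb (PG2 w L U A) G w) → ∃ n, E n om ∧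
    Et (emb (PG2 w L U A) G A) S b n ∧ ∀ n', Et (emb (PG2 w L U A) G A) S b n' → n' = n

/-- ST2: a countable model of ZFC with the structure `K3` has a generic extension with the
structure `K4` -/
def ST2Stmt : Prop := ∀ (M : Type) [SetStr M] [ZFC M] [Countable M] (w L U A R : M),
  K3 w L U A R → ∃ (N : Type) (_ : SetStr N) (_ : ZFC N) (i : M → N), IsGenExt i ∧
  ∃ w' L' A' R' h r j Γ : N, K4 w' L' A' R' h r j Γ

/-! ## Part C: the end -/

/-- PLN: the plain ladder principle from the structure `K4` -/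
def PLNStmt : Prop := ∀ (M : Type) [SetStr M] [ZFC M] (w L A R h r j Γ : M),
  K4 w L A R h r j Γ → _root_.FRU.LadderPrinciple (fun x y : M => E x y)

/-- CHL: the continuum hypothesis implies Luzin's axiom -/
def CHLStmt : Prop := ∀ (M : Type) [SetStr M] [ZFC M], ContinuumHypothesis M →
  _root_.FRU.LuzinAxiom (fun x y : M => E x y)

end SW.FU
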