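import Pool.Agent.H14.FRU.TDefs

/-!
Assembly of part T: the ladder principle implies a negative answer.
-/

open Set Topology Cardinal

namespace FRU

theorem tmain (hpsi : PSIStmt) (hfuk : FUKStmt) (hadf : ADFStmt) (hnfp : NFPStmt)
    (hmpa : MPAStmt) (hsrj : SRJStmt) (hnmz : NMZStmt)
    (h : ∃ (W : Type) (_ : LinearOrder W) (h : W → W → ℕ → List Bool)
      (r : Set W → ℕ → Bool) (A j : Set W → W → ℕ), Ladder h r A j) : ¬ Question := by
  obtain ⟨W, _, h, r, A, j, hl⟩ := h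
  intro hq
  have had := hadf W h r A j hl
  obtain ⟨h2, h3⟩ := hpsi _ _ (gg r A j) had
  have hfu := hfuk _ _ (gg r A j) had (hnfp W h r A j hl)
  obtain ⟨P, hP1, hP2, hP3⟩ := hmpa W h r A j hl
  have hunc : Uncountable W := by
    rw [← not_countable_iff]
    intro hc
    obtain ⟨a, ha⟩ := hl.bdd Set.univ Set.countable_univ
    exact lt_irrefl _ (ha a (Set.mem_univ a))
  obtain ⟨Q, hQ1, hQ2⟩ := hsrj W _ P hP1 hP2 hP3
  exact hnmz W hunc (hq (OnePoint (Psi (gg r A j))) (W → unitInterval) Q hQ1 hQ2)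

end FRU
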